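import Mathlib
import Pool.Agent.J4H21.FL.Cover

set_option autoImplicit false

/-!
Tails of linear functionals on a spread family of points, and the escape inequality for steep
functionals.
-/

namespace Pool.Agent.J4H21.SC

open MeasureTheory Set
open scoped ENNReal Pointwise NNReal
open Pool.Agent.H815R2.Flat Pool.Agent.J4H21.FL

variable {d : ℕ}

/-- exponential moments of a linear functional on a spread family -/
theorem exp_sum {ι : Type*} [Fintype ι] [Nonempty ι] (p : Seminorm ℝ (Eu d))
    (hcont : Continuous p)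
    (h0 : volume {y : Eu d | p y ≤ 1} ≠ 0)
    (hfin : volume {y : Eu d | p y ≤ 1} ≠ ⊤)
    (u : ι → Eu d) (hu : ∀ i, p (u i) ≤ 1) (r q D : ℝ) (hr0 : 0 < r)
    (hr1 : r ≤ 1)
    (hq : ∀ y : Eu d, (∑ i : ι, if p (u i - y) ≤ r then (1 : ℝ) else 0) ≤ q)
    (hD : q * 2 ^ d ≤ D * Fintype.card ι * r ^ d)
    (φ : Eu d →L[ℝ] ℝ) (s : ℝ) (hs : 0 < s)
    (hφ : ∫⁻ z in {y : Eu d | p y ≤ 1}, ENNReal.ofReal |φ z|
      ≤ ENNReal.ofReal s * volume {y : Eu d | p y ≤ 1}) :
    ∑ i, Real.exp (Real.log 2 / (8 * s) * |φ (u i)|) ≤ 3 * D * Fintype.card ι := by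
  classical
  set κ : ℝ := Real.log 2 / (8 * s) with hκ
  have hlog2 := Real.log_pos (by norm_num : (1 : ℝ) < 2)
  have hκ0 : 0 < κ := by positivity
  have hq0 : 0 ≤ q := by
    refine le_trans ?_ (hq 0)
    exact Finset.sum_nonneg fun i _ => by split_ifs <;> norm_num
  set Ψ : Eu d → ℝ≥0∞ := fun y => ENNReal.ofReal (Real.exp (κ * |φ y|)) with hΨ
  have hΨm : Measurable Ψ := by
    apply Measurable.ennreal_ofReal
    exact (Real.continuous_exp.comp (continuous_const.mul
      (continuous_abs.comp φ.continuous))).measurable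
  have hmr : MeasurableSet {y : Eu d | p y ≤ r} :=
    (isClosed_le hcont continuous_const).measurableSet
  -- Jensen in z
  have hJ : ∀ i, Ψ (u i) * volume {z : Eu d | p z ≤ r}
      ≤ ∫⁻ z in {z : Eu d | p z ≤ r}, Ψ (u i + z) := by
    intro i
    have hneg : ∫⁻ z in {z : Eu d | p z ≤ r}, Ψ (u i + -z)
        = ∫⁻ z in {z : Eu d | p z ≤ r}, Ψ (u i + z) := by
      rw [← lintegral_indicator hmr, ← lintegral_indicator hmr,
        ← lintegral_neg_eq_self (μ := (volume : Measure (Eu d)))
          (fun z => ({z : Eu d | p z ≤ r}).indicator (fun z => Ψ (u i + z)) z)]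
      congr 1
      ext z
      by_cases hz : p z ≤ r
      · rw [indicator_of_mem (show z ∈ {z : Eu d | p z ≤ r} from hz),
          indicator_of_mem]
        show p (-z) ≤ r
        rwa [map_neg_eq_map]
      · rw [indicator_of_notMem (show z ∉ {z : Eu d | p z ≤ r} from hz),
          indicator_of_notMem]
        show ¬ p (-z) ≤ r
        rwa [map_neg_eq_map]
    have h2 : 2 * (Ψ (u i) * volume {z : Eu d | p z ≤ r})
        ≤ 2 * ∫⁻ z in {z : Eu d | p z ≤ r}, Ψ (u i + z) := by
      calc 2 * (Ψ (u i) * volume {z : Eu d | p z ≤ r})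
          = ∫⁻ _ in {z : Eu d | p z ≤ r}, 2 * Ψ (u i) := by
            rw [setLIntegral_const]; ring
        _ ≤ ∫⁻ z in {z : Eu d | p z ≤ r}, (Ψ (u i + z) + Ψ (u i + -z)) := by
            refine lintegral_mono fun z => ?_
            have e1 : (2 : ℝ≥0∞) * Ψ (u i) = ENNReal.ofReal (2 * Real.exp (κ * |φ (u i)|)) := by
              rw [ENNReal.ofReal_mul (by norm_num)]; norm_num [hΨ]
            show (2 : ℝ≥0∞) * Ψ (u i) ≤ Ψ (u i + z) + Ψ (u i + -z)
            rw [e1, hΨ]
            simp only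
            rw [← ENNReal.ofReal_add (Real.exp_pos _).le (Real.exp_pos _).le]
            apply ENNReal.ofReal_le_ofReal
            set a := κ * |φ (u i + z)| with ha
            set b := κ * |φ (u i + -z)| with hb
            have hab : κ * |φ (u i)| ≤ (a + b) / 2 := by
              have h3 : |2 * φ (u i)| ≤ |φ (u i + z)| + |φ (u i + -z)| := by
                have : 2 * φ (u i) = φ (u i + z) + φ (u i + -z) := by
                  rw [map_add, map_add, map_neg]; ring
                rw [this]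
                exact abs_add_le _ _
              rw [abs_mul, abs_of_pos (by norm_num : (0 : ℝ) < 2)] at h3
              rw [ha, hb]
              nlinarith
            have h4 : Real.exp (κ * |φ (u i)|) ≤ Real.exp ((a + b) / 2) := Real.exp_le_exp.mpr hab
            have h5 : 2 * Real.exp ((a + b) / 2) ≤ Real.exp a + Real.exp b := by
              have e2 : Real.exp a = Real.exp (a / 2) ^ 2 := by
                rw [← Real.exp_nat_mul]; congr 1; push_cast; ring
              have e3 : Real.exp b = Real.exp (b / 2) ^ 2 := by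
                rw [← Real.exp_nat_mul]; congr 1; push_cast; ring
              have e4 : Real.exp ((a + b) / 2) = Real.exp (a / 2) * Real.exp (b / 2) := by
                rw [← Real.exp_add]; congr 1; ring
              rw [e2, e3, e4]
              nlinarith [sq_nonneg (Real.exp (a / 2) - Real.exp (b / 2))]
            linarith
        _ = (∫⁻ z in {z : Eu d | p z ≤ r}, Ψ (u i + z))
            + ∫⁻ z in {z : Eu d | p z ≤ r}, Ψ (u i + -z) := by
            exact lintegral_add_left (hΨm.comp (measurable_const_add _)) _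
        _ = _ := by rw [hneg, two_mul]
    exact (ENNReal.mul_le_mul_iff_right (by norm_num) (by norm_num)).mp h2
  have htr := transfer p hcont u hu r q hr1 hq Ψ hΨm
  have hsum : (∑ i, Ψ (u i)) * volume {z : Eu d | p z ≤ r}
      ≤ ENNReal.ofReal q * (ENNReal.ofReal (2 ^ d)
        * (3 * volume {y : Eu d | p y ≤ 1})) := by
    rw [Finset.sum_mul]
    refine (Finset.sum_le_sum fun i _ => hJ i).trans (htr.trans ?_)
    gcongr
    rw [setLint_smul p hcont Ψ hΨm 2 (by norm_num)]
    gcongr
    refine le_trans (le_of_eq ?_) (expMoment p hcont hfin φ s hs hφ)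
    congr 1
    ext z
    simp only [hΨ]
    congr 2
    rw [map_smul, smul_eq_mul, abs_mul, abs_of_pos (by norm_num : (0 : ℝ) < 2), hκ]
    field_simp
    ring
  rw [vol_ball' p r hr0] at hsum
  have hsum2 : (∑ i, Ψ (u i)) * ENNReal.ofReal (r ^ d)
      ≤ ENNReal.ofReal q * (ENNReal.ofReal (2 ^ d) * 3) := by
    rw [← ENNReal.mul_le_mul_iff_left h0 hfin]
    calc _ = _ := by rw [mul_assoc]
      _ ≤ _ := hsum
      _ = _ := by ring
  have hS : ∑ i, Ψ (u i) = ENNReal.ofReal (∑ i, Real.exp (κ * |φ (u i)|)) := by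
    rw [ENNReal.ofReal_sum_of_nonneg (fun i _ => (Real.exp_pos _).le)]
  rw [hS, ← ENNReal.ofReal_mul (Finset.sum_nonneg fun i _ => (Real.exp_pos _).le),
    show (3 : ℝ≥0∞) = ENNReal.ofReal 3 by norm_num, ← ENNReal.ofReal_mul (by positivity),
    ← ENNReal.ofReal_mul hq0, ENNReal.ofReal_le_ofReal_iff (by positivity)] at hsum2
  have hrd : 0 < r ^ d := by positivity
  have : (∑ i, Real.exp (κ * |φ (u i)|)) * r ^ d ≤ (3 * D * Fintype.card ι) * r ^ d := by
    calc _ ≤ _ := hsum2
      _ = 3 * (q * 2 ^ d) := by ring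
      _ ≤ 3 * (D * Fintype.card ι * r ^ d) := by gcongr
      _ = _ := by ring
  exact le_of_mul_le_mul_right this hrd

/-- the number of the points where a functional is large -/
theorem tail_count {ι : Type*} [Fintype ι] [Nonempty ι] (p : Seminorm ℝ (Eu d))
    (hcont : Continuous p)
    (h0 : volume {y : Eu d | p y ≤ 1} ≠ 0)
    (hfin : volume {y : Eu d | p y ≤ 1} ≠ ⊤)
    (u : ι → Eu d) (hu : ∀ i, p (u i) ≤ 1) (r q D : ℝ) (hr0 : 0 < r)
    (hr1 : r ≤ 1)
    (hq : ∀ y : Eu d, (∑ i : ι, if p (u i - y) ≤ r then (1 : ℝ) else 0) ≤ q)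
    (hD : q * 2 ^ d ≤ D * Fintype.card ι * r ^ d)
    (φ : Eu d →L[ℝ] ℝ) (s : ℝ) (hs : 0 < s)
    (hφ : ∫⁻ z in {y : Eu d | p y ≤ 1}, ENNReal.ofReal |φ z|
      ≤ ENNReal.ofReal s * volume {y : Eu d | p y ≤ 1}) (c : ℝ) :
    ∑ i, (if c ≤ φ (u i) then (1 : ℝ) else 0)
      ≤ 3 * D * Fintype.card ι * Real.exp (-(Real.log 2 / (8 * s) * c)) := by
  have h1 := exp_sum p hcont h0 hfin u hu r q D hr0 hr1 hq hD φ s hs hφ
  have hlog2 := Real.log_pos (by norm_num : (1 : ℝ) < 2)
  set κ : ℝ := Real.log 2 / (8 * s) with hκ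
  have hκ0 : 0 < κ := by positivity
  calc ∑ i, (if c ≤ φ (u i) then (1 : ℝ) else 0)
      ≤ ∑ i, Real.exp (κ * |φ (u i)|) * Real.exp (-(κ * c)) := by
        refine Finset.sum_le_sum fun i _ => ?_
        rw [← Real.exp_add]
        split_ifs with h
        · apply Real.one_le_exp
          have h2 : c ≤ |φ (u i)| := h.trans (le_abs_self _)
          nlinarith
        · exact (Real.exp_pos _).le
    _ = (∑ i, Real.exp (κ * |φ (u i)|)) * Real.exp (-(κ * c)) := by rw [Finset.sum_mul]
    _ ≤ _ := by gcongr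

/-- the points which leave the ball in the direction `x` have a steep functional nearby -/
theorem escape_steep (p : Seminorm ℝ (Eu d)) (hcont : Continuous p) (x : Eu d) (R : ℝ)
    (hx : p x ≤ R) (t e ε : ℝ) (ht : 0 < t) (he : 0 < e) (hε : 0 ≤ ε) (M : ℕ) (hM : 0 < M)
    (hMR : t * R ≤ M * ε) :
    volume {z : Eu d | p z ≤ 1 ∧ 1 + e ≤ p (z + t • x)}
      ≤ M * ENNReal.ofReal ((1 + e + ε) ^ d) *
        volume {z : Eu d | p z ≤ 1 ∧ e / t ≤ fderiv ℝ p z x} := by
  have hM0 : (0 : ℝ) < M := by exact_mod_cast hM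
  set δ : ℝ := t / M with hδ
  have hδ0 : 0 < δ := by positivity
  set B : Set (Eu d) := {z : Eu d | p z ≤ 1 ∧ e / t ≤ fderiv ℝ p z x} with hB
  set ρ : ℝ := 1 + e + ε with hρ
  have hρ0 : 0 < ρ := by positivity
  -- bad points
  have hN : volume {z : Eu d | ¬ DifferentiableAt ℝ p z} = 0 := ae_diff p hcont
  have hcov : {z : Eu d | p z ≤ 1 ∧ 1 + e ≤ p (z + t • x)}
      ⊆ ⋃ k ∈ Finset.range M, (fun z => z + ((k + 1 : ℕ) * δ) • x) ⁻¹'
        ((ρ • B) ∪ {z : Eu d | ¬ DifferentiableAt ℝ p z}) := by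
    intro z hz
    obtain ⟨hz1, hz2⟩ := hz
    have hex : ∃ k : ℕ, 1 + e ≤ p (z + (k * δ) • x) := by
      refine ⟨M, ?_⟩
      rw [hδ, mul_div_cancel₀ _ hM0.ne']
      exact hz2
    classical
    set k₀ := Nat.find hex with hk₀
    have hk₀1 : 1 + e ≤ p (z + (k₀ * δ) • x) := Nat.find_spec hex
    have hk₀M : k₀ ≤ M := by
      apply Nat.find_min' hex
      rw [hδ, mul_div_cancel₀ _ hM0.ne']
      exact hz2
    have hk₀0 : k₀ ≠ 0 := by
      intro h
      rw [h, Nat.cast_zero, zero_mul, zero_smul, add_zero] at hk₀1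
      linarith
    obtain ⟨k, hk⟩ := Nat.exists_eq_succ_of_ne_zero hk₀0
    have hlt : p (z + (k * δ) • x) < 1 + e := by
      have h1 : k < k₀ := by omega
      have h2 := Nat.find_min hex h1
      exact not_le.1 h2
    simp only [mem_iUnion]
    refine ⟨k, by rw [Finset.mem_range]; omega, ?_⟩
    rw [mem_preimage]
    by_cases hdiff : DifferentiableAt ℝ p (z + ((k + 1 : ℕ) * δ) • x)
    · left
      set w := z + ((k + 1 : ℕ) * δ) • x with hw
      have hw1 : 1 + e ≤ p w := by
        rw [hw]
        rw [hk] at hk₀1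
        exact hk₀1
      have hw2 : p w ≤ ρ := by
        have e1 : w = (z + (k * δ) • x) + δ • x := by
          rw [hw]
          push_cast
          rw [add_mul, one_mul, add_smul, add_assoc]
        calc p w ≤ p (z + (k * δ) • x) + p (δ • x) := by rw [e1]; exact map_add_le_add p _ _
          _ ≤ (1 + e) + δ * R := by
              rw [map_smul_eq_mul, Real.norm_of_nonneg hδ0.le]
              gcongr
          _ ≤ ρ := by
              have h3 : δ * R ≤ ε := by
                rw [hδ, div_mul_eq_mul_div, div_le_iff₀ hM0]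
                linarith
              rw [hρ]
              linarith
      refine ⟨ρ⁻¹ • w, ⟨?_, ?_⟩, ?_⟩
      · rw [map_smul_eq_mul, Real.norm_of_nonneg (by positivity), inv_mul_le_iff₀ hρ0, mul_one]
        exact hw2
      · rw [fderiv_scale p w ρ⁻¹ (by positivity)]
        have h4 := fderiv_le p w (-(((k + 1 : ℕ) * δ) • x)) hdiff
        rw [map_neg, map_smul, smul_eq_mul] at h4
        have h5 : w + -(((k + 1 : ℕ) * δ) • x) = z := by
          rw [hw]
          abel
        rw [h5] at h4
        set f := fderiv ℝ p w x with hf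
        set c : ℝ := (k + 1 : ℕ) * δ with hc
        have hc0 : 0 < c := by positivity
        have hct : c ≤ t := by
          have h6 : ((k + 1 : ℕ) : ℝ) ≤ M := by exact_mod_cast (by omega : k + 1 ≤ M)
          calc c ≤ M * δ := by rw [hc]; gcongr
            _ = t := by rw [hδ]; field_simp
        have h7 : e ≤ c * f := by linarith
        rw [div_le_iff₀ ht]
        have h8 : 0 < f := by
          by_contra hcon
          push Not at hcon
          nlinarith
        nlinarith
      · show ρ • ρ⁻¹ • w = w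
        rw [smul_smul, mul_inv_cancel₀ hρ0.ne', one_smul]
    · right
      exact hdiff
  calc volume {z : Eu d | p z ≤ 1 ∧ 1 + e ≤ p (z + t • x)}
      ≤ ∑ k ∈ Finset.range M, volume ((fun z => z + ((k + 1 : ℕ) * δ) • x) ⁻¹'
        ((ρ • B) ∪ {z : Eu d | ¬ DifferentiableAt ℝ p z})) :=
        (measure_mono hcov).trans (measure_biUnion_finset_le _ _)
    _ = ∑ _k ∈ Finset.range M, volume ((ρ • B) ∪ {z : Eu d | ¬ DifferentiableAt ℝ p z}) := by
        refine Finset.sum_congr rfl fun k _ => ?_
        exact measure_preimage_add_right _ _ _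
    _ ≤ ∑ _k ∈ Finset.range M, ENNReal.ofReal (ρ ^ d) * volume B := by
        refine Finset.sum_le_sum fun k _ => ?_
        refine (measure_union_le _ _).trans ?_
        rw [hN, add_zero, Measure.addHaar_smul, finrank_euclideanSpace_fin,
          abs_of_nonneg (by positivity)]
    _ = _ := by
        rw [Finset.sum_const, Finset.card_range, nsmul_eq_mul, mul_assoc]

end Pool.Agent.J4H21.SC
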