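import Mathlib
import Pool.Agent.J4H21.SC.Tail

set_option autoImplicit false

/-!
The chain: every escape is seen from some point of the chain.
-/

namespace Pool.Agent.J4H21.SC

open MeasureTheory Set
open scoped ENNReal Pointwise NNReal
open Pool.Agent.H815R2.Flat Pool.Agent.J4H21.FL

variable {d : ℕ}

/-- some step of the chain leads out of the ball -/
def Esc {ι : Type*} (p : Seminorm ℝ (Eu d)) (α t e : ℝ) (P : Eu d →ₗ[ℝ] Eu d) (u : ι → Eu d) :
    (j : ℕ) → (Fin j → ι) → Eu d → Prop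
  | 0, _, _ => False
  | j + 1, i, z => 1 + e ≤ p (chain α u j (fun l => i l.succ) z + t • P (u (i 0))) ∨
      Esc p α t e P u j (fun l => i l.succ) z

theorem esc_cons {ι : Type*} (p : Seminorm ℝ (Eu d)) (α t e : ℝ) (P : Eu d →ₗ[ℝ] Eu d)
    (u : ι → Eu d) (j : ℕ) (a : ι) (i : Fin j → ι) (z : Eu d) :
    Esc p α t e P u (j + 1) (Fin.cons a i) z
      ↔ 1 + e ≤ p (chain α u j i z + t • P (u a)) ∨ Esc p α t e P u j i z := by
  show (1 + e ≤ p (chain α u j (fun l => (Fin.cons a i : Fin (j + 1) → ι) l.succ) z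
      + t • P (u ((Fin.cons a i : Fin (j + 1) → ι) 0))) ∨
    Esc p α t e P u j (fun l => (Fin.cons a i : Fin (j + 1) → ι) l.succ) z) ↔ _
  simp only [Fin.cons_zero, Fin.cons_succ]

theorem esc_meas {ι : Type*} (p : Seminorm ℝ (Eu d)) (hcont : Continuous p) (α t e : ℝ)
    (P : Eu d →ₗ[ℝ] Eu d) (u : ι → Eu d) (j : ℕ) (i : Fin j → ι) :
    MeasurableSet {z | Esc p α t e P u j i z} := by
  induction j with
  | zero => exact MeasurableSet.const False
  | succ j ih =>
    have h1 : MeasurableSet {z | 1 + e ≤ p (chain α u j (fun l => i l.succ) z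
        + t • P (u (i 0)))} :=
      (isClosed_le continuous_const (hcont.comp ((chain_cont α u j _).add
        continuous_const))).measurableSet
    exact h1.union (ih fun l => i l.succ)

/-- the chain stays in the ball -/
theorem chain_mem {ι : Type*} (p : Seminorm ℝ (Eu d)) (u : ι → Eu d) (hu : ∀ i, p (u i) ≤ 1)
    (r : ℝ) (hr0 : 0 < r) (j : ℕ) (i : Fin j → ι) (z : Eu d) (hz : p z ≤ r) :
    p (chain (r / (1 + r)) u j i z) ≤ r := by
  induction j with
  | zero => exact hz
  | succ j ih =>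
    show p ((r / (1 + r)) • (u (i 0) + chain (r / (1 + r)) u j (fun l => i l.succ) z)) ≤ r
    rw [map_smul_eq_mul, Real.norm_of_nonneg (by positivity)]
    calc r / (1 + r) * p (u (i 0) + chain (r / (1 + r)) u j (fun l => i l.succ) z)
        ≤ r / (1 + r) * (1 + r) := by
          gcongr
          exact (map_add_le_add p _ _).trans (add_le_add (hu _) (ih _))
      _ = r := by field_simp

/-- if there is no escape then the functional `φ ∘ P` is small at the end of the chain -/
theorem noesc {ι : Type*} (p : Seminorm ℝ (Eu d)) (u : ι → Eu d) (hu : ∀ i, p (u i) ≤ 1)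
    (r t e : ℝ) (hr0 : 0 < r) (hr1 : r ≤ 1) (ht : 0 < t) (he : 0 ≤ 1 + e - r)
    (P : Eu d →ₗ[ℝ] Eu d) (φ : Eu d →ₗ[ℝ] ℝ) (hφ : ∀ y, φ y ≤ p y) (z : Eu d) (j : ℕ)
    (i : Fin j → ι) (h : ¬ Esc p (r / (1 + r)) t e P u j i z) :
    φ (P (chain (r / (1 + r)) u j i z))
      ≤ ((1 + e - r) + j * (r - φ (chain (r / (1 + r)) u j i z))) / t
        + (r / (1 + r)) ^ j * φ (P z) := by
  set α : ℝ := r / (1 + r) with hα
  have hα0 : 0 < α := by positivity
  have hα2 : α ≤ 1 / 2 := by
    rw [hα, div_le_div_iff₀ (by positivity) (by norm_num)]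
    linarith
  have hαr : α * (1 + r) = r := by rw [hα]; field_simp
  induction j with
  | zero =>
    have : 0 ≤ (1 + e - r) / t := by positivity
    simp only [chain, CharP.cast_eq_zero, zero_mul, add_zero, pow_zero, one_mul]
    linarith
  | succ j ih =>
    have h' := h
    have h1 : ¬ (1 + e ≤ p (chain α u j (fun l => i l.succ) z + t • P (u (i 0)))) :=
      fun hc => h' (Or.inl hc)
    have h2 : ¬ Esc p α t e P u j (fun l => i l.succ) z := fun hc => h' (Or.inr hc)
    have h3 := ih (fun l => i l.succ) h2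
    set w := chain α u j (fun l => i l.succ) z with hw
    have hch : chain α u (j + 1) i z = α • (u (i 0) + w) := rfl
    rw [hch]
    rw [map_smul, map_add, map_smul, map_smul, map_add, map_add, smul_eq_mul, smul_eq_mul]
    have h4 : φ (P (u (i 0))) ≤ ((1 + e - r) + (r - φ w)) / t := by
      rw [not_le] at h1
      have h5 := hφ (w + t • P (u (i 0)))
      rw [map_add, map_smul, smul_eq_mul] at h5
      rw [le_div_iff₀ ht]
      linarith
    have h5 : φ (u (i 0)) ≤ 1 := (hφ _).trans (hu _)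
    have h6 : α * (r - φ w) ≤ r - α * (φ (u (i 0)) + φ w) := by
      nlinarith
    push_cast
    rw [pow_succ]
    calc α * (φ (P (u (i 0))) + φ (P w))
        ≤ α * (((1 + e - r) + (r - φ w)) / t
          + (((1 + e - r) + j * (r - φ w)) / t + α ^ j * φ (P z))) := by gcongr
      _ = (α * 2 * (1 + e - r) + (j + 1) * (α * (r - φ w))) / t + α ^ j * α * φ (P z) := by
          field_simp
          ring
      _ ≤ (1 * (1 + e - r) + (j + 1) * (r - α * (φ (u (i 0)) + φ w))) / t
          + α ^ j * α * φ (P z) := by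
          gcongr
          linarith
      _ = _ := by ring

/-- the geometric lemma -/
theorem geo2 {ι : Type*} (p : Seminorm ℝ (Eu d)) (u : ι → Eu d) (hu : ∀ i, p (u i) ≤ 1)
    (r s τ R t e : ℝ) (hr0 : 0 < r) (hr1 : r ≤ 1) (hs0 : 0 < s) (hs1 : s < 1) (hτ : 0 < τ)
    (ht : 0 < t) (P : Eu d →ₗ[ℝ] Eu d) (hR0 : 0 ≤ R) (hR : ∀ x, p (P x) ≤ R * p x) (j : ℕ)
    (i : Fin j → ι) (z : Eu d) (hz : p z ≤ r)
    (hRj : (r / (1 + r)) ^ j * R ≤ s * r / (4 * τ)) (ht1 : 4 * j * τ / (1 - s) ≤ t)
    (ht3 : 4 * (1 + e - r) * τ / (s * r) ≤ t) (he : 0 ≤ 1 + e - r)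
    (hT : r < p ((1 - s) • chain (r / (1 + r)) u j i z + τ • P (chain (r / (1 + r)) u j i z))) :
    Esc p (r / (1 + r)) t e P u j i z := by
  by_contra hcon
  set α : ℝ := r / (1 + r) with hα
  have hα0 : 0 < α := by positivity
  set w := chain α u j i z with hw
  obtain ⟨φ, hφ1, hφ2⟩ := exists_norming p ((1 - s) • w + τ • P w)
  rw [map_add, map_smul, map_smul, smul_eq_mul, smul_eq_mul] at hφ1
  have hs1' : 0 < 1 - s := by linarith
  set h := φ (P w) with hh
  have h1 := noesc p u hu r t e hr0 hr1 ht he P φ hφ2 z j i hcon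
  rw [← hα, ← hw, ← hh] at h1
  have hσ : 0 ≤ r - φ w := by
    have := (hφ2 w).trans (chain_mem p u hu r hr0 j i z hz)
    linarith
  have hstar : s * r + (1 - s) * (r - φ w) < τ * h := by
    have h2 : r < (1 - s) * φ w + τ * h := by rw [hφ1]; exact hT
    nlinarith
  have hh0 : s * r < τ * h := by nlinarith
  have hhpos : 0 < h := by
    have : 0 < τ * h := lt_trans (by positivity) hh0
    exact (mul_pos_iff_of_pos_left hτ).1 this
  -- the three terms
  have ha : (1 + e - r) / t ≤ h / 4 := by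
    rw [div_le_iff₀ (by positivity)] at ht3
    rw [div_le_div_iff₀ ht (by norm_num)]
    have h3 : (1 + e - r) * 4 * τ ≤ h * t * τ := by
      calc (1 + e - r) * 4 * τ = 4 * (1 + e - r) * τ := by ring
        _ ≤ t * (s * r) := ht3
        _ ≤ t * (τ * h) := by gcongr
        _ = h * t * τ := by ring
    exact le_of_mul_le_mul_right h3 hτ
  have hb : j * (r - φ w) / t ≤ h / 4 := by
    rw [div_le_iff₀ hs1'] at ht1
    rw [div_le_div_iff₀ ht (by norm_num)]
    have h3 : (1 - s) * (r - φ w) ≤ τ * h := by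
      have : 0 < s * r := by positivity
      linarith
    have h4 : (j * (r - φ w) * 4) * (1 - s) ≤ (h * t) * (1 - s) := by
      calc (j * (r - φ w) * 4) * (1 - s) = 4 * j * ((1 - s) * (r - φ w)) := by ring
        _ ≤ 4 * j * (τ * h) := by gcongr
        _ = (4 * j * τ) * h := by ring
        _ ≤ (t * (1 - s)) * h := by gcongr
        _ = _ := by ring
    exact le_of_mul_le_mul_right h4 hs1'
  have hc : α ^ j * φ (P z) ≤ h / 4 := by
    have h3 : φ (P z) ≤ R := by
      calc φ (P z) ≤ p (P z) := hφ2 _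
        _ ≤ R * p z := hR z
        _ ≤ R * 1 := by
            gcongr
            linarith
        _ = R := mul_one R
    calc α ^ j * φ (P z) ≤ α ^ j * R := by gcongr
      _ ≤ s * r / (4 * τ) := hRj
      _ ≤ τ * h / (4 * τ) := by gcongr
      _ = h / 4 := by field_simp
  rw [add_div] at h1
  linarith

/-- the number of escapes -/
theorem esc_count {ι : Type*} [Fintype ι] (p : Seminorm ℝ (Eu d)) (hcont : Continuous p)
    (u : ι → Eu d) (hu : ∀ i, p (u i) ≤ 1) (r q D : ℝ) (hr0 : 0 < r) (hr1 : r ≤ 1) (hD0 : 0 < D)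
    (hq : ∀ y : Eu d, (∑ i : ι, if p (u i - y) ≤ r then (1 : ℝ) else 0) ≤ q)
    (hD : q * 2 ^ d ≤ D * Fintype.card ι * r ^ d)
    (P : Eu d →ₗ[ℝ] Eu d) (t e : ℝ) (E : ℝ≥0∞)
    (hesc : ∑ a, volume {z : Eu d | p z ≤ 1 ∧ 1 + e ≤ p (z + t • P (u a))}
      ≤ Fintype.card ι * E) (j : ℕ) :
    ∑ i : Fin j → ι, volume ({z : Eu d | p z ≤ r} ∩ {z | Esc p (r / (1 + r)) t e P u j i z})
      ≤ (Fintype.card ι : ℝ≥0∞) ^ j * (∑ l ∈ Finset.range j, ENNReal.ofReal D ^ l) * E := by
  set α : ℝ := r / (1 + r) with hα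
  set m : ℝ≥0∞ := (Fintype.card ι : ℝ≥0∞) with hmdef
  have hmR : m = ENNReal.ofReal (Fintype.card ι : ℝ) := (ENNReal.ofReal_natCast _).symm
  have hmr : MeasurableSet {y : Eu d | p y ≤ r} :=
    (isClosed_le hcont continuous_const).measurableSet
  induction j with
  | zero =>
    simp only [Finset.univ_unique, Finset.sum_singleton, Finset.range_zero, Finset.sum_empty,
      mul_zero, zero_mul, nonpos_iff_eq_zero]
    have : {z : Eu d | Esc p α t e P u 0 (default : Fin 0 → ι) z} = ∅ := by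
      ext z
      simp [Esc]
    rw [this, inter_empty, measure_empty]
  | succ j ih =>
    rw [sum_cons]
    simp only [esc_cons]
    -- the set of the first step
    set B : ι → Set (Eu d) := fun a => {z : Eu d | 1 + e ≤ p (z + t • P (u a))} with hB
    have hBm : ∀ a, MeasurableSet (B a) := fun a =>
      (isClosed_le continuous_const (hcont.comp (continuous_id.add
        continuous_const))).measurableSet
    have h1 : ∀ (a : ι) (i : Fin j → ι), volume ({z : Eu d | p z ≤ r} ∩
        {z | 1 + e ≤ p (chain α u j i z + t • P (u a)) ∨ Esc p α t e P u j i z})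
        ≤ (∫⁻ z in {z : Eu d | p z ≤ r}, (B a).indicator 1 (chain α u j i z))
          + volume ({z : Eu d | p z ≤ r} ∩ {z | Esc p α t e P u j i z}) := by
      intro a i
      have hpm : MeasurableSet ((chain α u j i) ⁻¹' (B a)) :=
        (chain_cont α u j i).measurable (hBm a)
      have e1 : (fun z => (B a).indicator (1 : Eu d → ℝ≥0∞) (chain α u j i z))
          = ((chain α u j i) ⁻¹' (B a)).indicator 1 := by
        ext z
        by_cases h : chain α u j i z ∈ B a
        · rw [indicator_of_mem h, indicator_of_mem (show z ∈ (chain α u j i) ⁻¹' B a from h)]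
          rfl
        · rw [indicator_of_notMem h, indicator_of_notMem (show z ∉ (chain α u j i) ⁻¹' B a from h)]
      rw [e1, lintegral_indicator_one hpm, Measure.restrict_apply hpm]
      refine le_trans (measure_mono ?_) (measure_union_le _ _)
      rintro z ⟨hz1, hz2 | hz2⟩
      · exact Or.inl ⟨hz2, hz1⟩
      · exact Or.inr ⟨hz1, hz2⟩
    calc ∑ a, ∑ i : Fin j → ι, volume ({z : Eu d | p z ≤ r} ∩
        {z | 1 + e ≤ p (chain α u j i z + t • P (u a)) ∨ Esc p α t e P u j i z})
        ≤ ∑ a, ∑ i : Fin j → ι,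
          ((∫⁻ z in {z : Eu d | p z ≤ r}, (B a).indicator 1 (chain α u j i z))
          + volume ({z : Eu d | p z ≤ r} ∩ {z | Esc p α t e P u j i z})) :=
          Finset.sum_le_sum fun a _ => Finset.sum_le_sum fun i _ => h1 a i
      _ = (∑ a, ∑ i : Fin j → ι,
          ∫⁻ z in {z : Eu d | p z ≤ r}, (B a).indicator 1 (chain α u j i z))
          + m * ∑ i : Fin j → ι, volume ({z : Eu d | p z ≤ r} ∩ {z | Esc p α t e P u j i z}) := by
          simp only [Finset.sum_add_distrib]
          congr 1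
          simp [hmdef]
      _ ≤ (∑ a, ENNReal.ofReal (D * Fintype.card ι) ^ j *
            ∫⁻ z in {z : Eu d | p z ≤ r}, (B a).indicator 1 z)
          + m * (m ^ j * (∑ l ∈ Finset.range j, ENNReal.ofReal D ^ l) * E) := by
          refine add_le_add (Finset.sum_le_sum fun a _ => ?_) (mul_le_mul' le_rfl ih)
          exact chain_law p hcont u hu r q D hr0 hr1 hq hD j ((B a).indicator 1)
            (measurable_one.indicator (hBm a))
      _ ≤ ENNReal.ofReal (D * Fintype.card ι) ^ j * (m * E)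
          + m * (m ^ j * (∑ l ∈ Finset.range j, ENNReal.ofReal D ^ l) * E) := by
          rw [← Finset.mul_sum]
          refine add_le_add (mul_le_mul' le_rfl (le_trans (Finset.sum_le_sum fun a _ => ?_) hesc))
            le_rfl
          rw [lintegral_indicator_one (hBm a), Measure.restrict_apply (hBm a)]
          refine measure_mono ?_
          rintro z ⟨hz1, hz2⟩
          have hz2' : p z ≤ r := hz2
          exact ⟨by linarith, hz1⟩
      _ = _ := by
          rw [Finset.sum_range_succ, ENNReal.ofReal_mul hD0.le, ← hmR, mul_pow]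
          ring

/-- The counting inequality. -/
theorem count2 {ι : Type*} [Fintype ι] [Nonempty ι] (p : Seminorm ℝ (Eu d))
    (hcont : Continuous p)
    (h0 : volume {y : Eu d | p y ≤ 1} ≠ 0)
    (hfin : volume {y : Eu d | p y ≤ 1} ≠ ⊤)
    (u : ι → Eu d) (hu : ∀ i, p (u i) ≤ 1) (r q D : ℝ) (hr0 : 0 < r)
    (hr1 : r ≤ 1) (hD0 : 0 < D)
    (hq : ∀ y : Eu d, (∑ i : ι, if p (u i - y) ≤ r then (1 : ℝ) else 0) ≤ q)
    (hD : q * 2 ^ d ≤ D * Fintype.card ι * r ^ d)
    (P : Eu d →ₗ[ℝ] Eu d) (s τ R t e Δ κ : ℝ) (hs0 : 0 < s) (hs1 : s < 1) (hτ : 0 < τ)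
    (ht : 0 < t) (he : 0 < e) (hR0 : 0 ≤ R) (hR : ∀ x, p (P x) ≤ R * p x)
    (hΔ0 : 0 < Δ)
    (hdet : Δ ≤ |LinearMap.det ((1 - s) • (LinearMap.id : Eu d →ₗ[ℝ] Eu d) + τ • P)|)
    (j : ℕ) (hRj : (r / (1 + r)) ^ j * R ≤ s * r / (4 * τ))
    (ht1 : 4 * j * τ / (1 - s) ≤ t) (ht3 : 4 * (1 + e - r) * τ / (s * r) ≤ t)
    (hκ0 : 0 ≤ κ)
    (hesc : ∑ i, volume {z : Eu d | p z ≤ 1 ∧ 1 + e ≤ p (z + t • P (u i))}
      ≤ Fintype.card ι * (ENNReal.ofReal κ * volume {y : Eu d | p y ≤ 1})) :
    r ^ d * (1 - D ^ j / Δ) ≤ κ * ∑ l ∈ Finset.range j, D ^ l := by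
  classical
  set V := volume {y : Eu d | p y ≤ 1} with hV
  set α : ℝ := r / (1 + r) with hα
  set T : Eu d →ₗ[ℝ] Eu d := (1 - s) • (LinearMap.id : Eu d →ₗ[ℝ] Eu d) + τ • P with hT
  have hTa : ∀ x, T x = (1 - s) • x + τ • P x := fun x => rfl
  have hTc : Continuous T := T.continuous_of_finiteDimensional
  have hm : (0 : ℝ) < Fintype.card ι := by exact_mod_cast Fintype.card_pos
  set m : ℝ≥0∞ := (Fintype.card ι : ℝ≥0∞) with hmdef
  have hm0 : m ≠ 0 := by
    rw [hmdef]
    exact_mod_cast Fintype.card_ne_zero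
  have hmt : m ≠ ⊤ := ENNReal.natCast_ne_top _
  have hmR : m = ENNReal.ofReal (Fintype.card ι : ℝ) := (ENNReal.ofReal_natCast _).symm
  have hmr : MeasurableSet {y : Eu d | p y ≤ r} :=
    (isClosed_le hcont continuous_const).measurableSet
  have hVr : volume {y : Eu d | p y ≤ r} = ENNReal.ofReal (r ^ d) * V := vol_ball' p r hr0
  -- the bad set of the linear map
  set B : Set (Eu d) := {w | p (T w) ≤ r} with hB
  have hBm : MeasurableSet B := (isClosed_le (hcont.comp hTc) continuous_const).measurableSet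
  have hdet0 : LinearMap.det T ≠ 0 := by
    intro h
    rw [h, abs_zero] at hdet
    linarith
  have hBvol : ∫⁻ z in {z : Eu d | p z ≤ r}, B.indicator 1 z
      ≤ ENNReal.ofReal (Δ⁻¹) * (ENNReal.ofReal (r ^ d) * V) := by
    calc ∫⁻ z in {z : Eu d | p z ≤ r}, B.indicator 1 z ≤ ∫⁻ z, B.indicator 1 z :=
          lintegral_mono' Measure.restrict_le_self le_rfl
      _ = volume B := lintegral_indicator_one hBm
      _ = volume (T ⁻¹' {y | p y ≤ r}) := rfl
      _ = ENNReal.ofReal |(LinearMap.det T)⁻¹| * volume {y : Eu d | p y ≤ r} :=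
          Measure.addHaar_preimage_linearMap volume hdet0 _
      _ ≤ _ := by
          rw [hVr]
          refine mul_le_mul' (ENNReal.ofReal_le_ofReal ?_) le_rfl
          rw [abs_inv]
          exact inv_anti₀ hΔ0 hdet
  have hlaw := chain_law p hcont u hu r q D hr0 hr1 hq hD j (B.indicator 1)
    (measurable_one.indicator hBm)
  have hcnt := esc_count p hcont u hu r q D hr0 hr1 hD0 hq hD P t e
    (ENNReal.ofReal κ * V) hesc j
  rw [← hα, ← hmdef] at hcnt
  -- the cover
  have hcov : ∀ i : Fin j → ι, ENNReal.ofReal (r ^ d) * V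
      ≤ (∫⁻ z in {z : Eu d | p z ≤ r}, B.indicator 1 (chain α u j i z))
        + volume ({z : Eu d | p z ≤ r} ∩ {z | Esc p α t e P u j i z}) := by
    intro i
    have h1 : {z : Eu d | p z ≤ r} ⊆ ((chain α u j i) ⁻¹' B ∩ {z : Eu d | p z ≤ r})
        ∪ ({z : Eu d | p z ≤ r} ∩ {z | Esc p α t e P u j i z}) := by
      intro z hz
      by_cases hzB : chain α u j i z ∈ B
      · exact Or.inl ⟨hzB, hz⟩
      · right
        refine ⟨hz, ?_⟩
        have hzB' : r < p (T (chain α u j i z)) := by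
          have : ¬ p (T (chain α u j i z)) ≤ r := hzB
          linarith
        exact geo2 p u hu r s τ R t e hr0 hr1 hs0 hs1 hτ ht P hR0 hR j i z hz hRj ht1 ht3
          (by linarith) (by rw [← hTa]; exact hzB')
    rw [← hVr]
    refine (measure_mono h1).trans ((measure_union_le _ _).trans ?_)
    refine add_le_add (le_of_eq ?_) le_rfl
    have hpm : MeasurableSet ((chain α u j i) ⁻¹' B) :=
      (chain_cont α u j i).measurable hBm
    have e1 : (fun z => B.indicator (1 : Eu d → ℝ≥0∞) (chain α u j i z))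
        = ((chain α u j i) ⁻¹' B).indicator 1 := by
      ext z
      by_cases h : chain α u j i z ∈ B
      · rw [indicator_of_mem h, indicator_of_mem (show z ∈ (chain α u j i) ⁻¹' B from h)]
        rfl
      · rw [indicator_of_notMem h, indicator_of_notMem (show z ∉ (chain α u j i) ⁻¹' B from h)]
    rw [e1, lintegral_indicator_one hpm, Measure.restrict_apply hpm]
  have hsum : m ^ j * (ENNReal.ofReal (r ^ d) * V)
      ≤ ENNReal.ofReal (D * Fintype.card ι) ^ j *
          (ENNReal.ofReal (Δ⁻¹) * (ENNReal.ofReal (r ^ d) * V))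
        + m ^ j * (∑ l ∈ Finset.range j, ENNReal.ofReal D ^ l) * (ENNReal.ofReal κ * V) := by
    calc m ^ j * (ENNReal.ofReal (r ^ d) * V)
        = ∑ _i : Fin j → ι, ENNReal.ofReal (r ^ d) * V := by
          simp [hmdef]
      _ ≤ ∑ i : Fin j → ι, ((∫⁻ z in {z : Eu d | p z ≤ r}, B.indicator 1 (chain α u j i z))
        + volume ({z : Eu d | p z ≤ r} ∩ {z | Esc p α t e P u j i z})) :=
          Finset.sum_le_sum fun i _ => hcov i
      _ = (∑ i : Fin j → ι, ∫⁻ z in {z : Eu d | p z ≤ r}, B.indicator 1 (chain α u j i z))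
        + ∑ i : Fin j → ι, volume ({z : Eu d | p z ≤ r} ∩ {z | Esc p α t e P u j i z}) :=
          Finset.sum_add_distrib
      _ ≤ _ := by
          refine add_le_add (hlaw.trans ?_) hcnt
          exact mul_le_mul' le_rfl hBvol
  have hDs : ∑ l ∈ Finset.range j, ENNReal.ofReal D ^ l
      = ENNReal.ofReal (∑ l ∈ Finset.range j, D ^ l) := by
    rw [ENNReal.ofReal_sum_of_nonneg fun l _ => by positivity]
    exact Finset.sum_congr rfl fun l _ => (ENNReal.ofReal_pow hD0.le l).symm
  have hS0 : 0 ≤ ∑ l ∈ Finset.range j, D ^ l := Finset.sum_nonneg fun l _ => by positivity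
  have hfinal : m ^ j * (ENNReal.ofReal (r ^ d) * V)
      ≤ m ^ j * (ENNReal.ofReal (D ^ j * (Δ⁻¹ * r ^ d)
        + (∑ l ∈ Finset.range j, D ^ l) * κ) * V) := by
    refine hsum.trans (le_of_eq ?_)
    rw [hDs, ENNReal.ofReal_mul hD0.le, ← hmR, mul_pow, ← ENNReal.ofReal_pow hD0.le,
      ENNReal.ofReal_add (by positivity) (by positivity),
      ENNReal.ofReal_mul (p := D ^ j) (by positivity),
      ENNReal.ofReal_mul (p := Δ⁻¹) (by positivity),
      ENNReal.ofReal_mul (p := ∑ l ∈ Finset.range j, D ^ l) hS0]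
    ring
  have hmj0 : m ^ j ≠ 0 := pow_ne_zero _ hm0
  have hmjt : m ^ j ≠ ⊤ := ENNReal.pow_ne_top hmt
  rw [ENNReal.mul_le_mul_iff_right hmj0 hmjt, ENNReal.mul_le_mul_iff_left h0 hfin,
    ENNReal.ofReal_le_ofReal_iff (by positivity)] at hfinal
  have e5 : D ^ j * (Δ⁻¹ * r ^ d) = r ^ d * (D ^ j / Δ) := by ring
  rw [e5] at hfinal
  nlinarith

end Pool.Agent.J4H21.SC
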