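import Mathlib
import Pool.Agent.J4H21.SC.Count
import Pool.Agent.J4H21.FL.Step

set_option autoImplicit false

/-!
The section criterion.
-/

namespace Pool.Agent.J4H21.SC

open MeasureTheory Set Module
open scoped ENNReal Pointwise NNReal
open Pool.Agent.H815R2.Flat Pool.Agent.J4H21.FL

variable {d : ℕ}

theorem two_pow_big (j : ℕ) (hj : 11 ≤ j) : 100 * (j : ℝ) ≤ 2 ^ j := by
  induction j, hj using Nat.le_induction with
  | base => norm_num
  | succ n hn ih =>
    rw [pow_succ]
    push_cast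
    have : (11 : ℝ) ≤ n := by exact_mod_cast hn
    linarith

/-- the average number of escapes -/
theorem esc_bound {ι : Type*} [Fintype ι] [Nonempty ι] (hd : 2 ≤ d) (p : Seminorm ℝ (Eu d))
    (hcont : Continuous p)
    (h0 : volume {y : Eu d | p y ≤ 1} ≠ 0)
    (hfin : volume {y : Eu d | p y ≤ 1} ≠ ⊤)
    (u : ι → Eu d) (hu : ∀ i, p (u i) ≤ 1) (r q D : ℝ) (hr0 : 0 < r)
    (hr1 : r ≤ 1) (hD0 : 0 < D)
    (hq : ∀ y : Eu d, (∑ i : ι, if p (u i - y) ≤ r then (1 : ℝ) else 0) ≤ q)
    (hD : q * 2 ^ d ≤ D * Fintype.card ι * r ^ d)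
    (P : Eu d →ₗ[ℝ] Eu d) (R η t : ℝ) (ht : 0 < t) (hR0 : 0 ≤ R)
    (hR : ∀ x, p (P x) ≤ R * p x) (hη0 : 0 < η)
    (hη : ∀ φ : Eu d →L[ℝ] ℝ, (∀ y, |φ y| ≤ p y) →
      ∫⁻ z in {y : Eu d | p y ≤ 1}, ENNReal.ofReal |φ (P z)|
        ≤ ENNReal.ofReal η * volume {y : Eu d | p y ≤ 1}) :
    ∑ i, volume {z : Eu d | p z ≤ 1 ∧ 1 + 1 / (d : ℝ) ≤ p (z + t • P (u i))}
      ≤ Fintype.card ι * (ENNReal.ofReal ((t * R * d + 2) * Real.exp 2 *
          (3 * D * Real.exp (-(Real.log 2 / (8 * η) * (1 / d / t)))))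
        * volume {y : Eu d | p y ≤ 1}) := by
  classical
  set V := volume {y : Eu d | p y ≤ 1} with hV
  have hd' : (2 : ℝ) ≤ d := by exact_mod_cast hd
  have hd0 : (0 : ℝ) < d := by linarith
  set PL : Eu d →L[ℝ] Eu d := LinearMap.toContinuousLinearMap P with hPL
  have hPLe : ∀ x, PL x = P x := fun x => rfl
  set M : ℕ := ⌈t * R * d⌉₊ + 1 with hM
  have hM1 : t * R * d ≤ M := by
    rw [hM]
    push_cast
    have := Nat.le_ceil (t * R * d)
    linarith
  have hM2 : (M : ℝ) ≤ t * R * d + 2 := by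
    rw [hM]
    push_cast
    have := Nat.ceil_lt_add_one (show 0 ≤ t * R * d by positivity)
    linarith
  have hMpos : 0 < M := by omega
  set X : ℝ := 3 * D * Real.exp (-(Real.log 2 / (8 * η) * (1 / d / t))) with hX
  have hX0 : 0 < X := by positivity
  have hKm : MeasurableSet {y : Eu d | p y ≤ 1} :=
    (isClosed_le hcont continuous_const).measurableSet
  have hfm : ∀ x : Eu d, MeasurableSet {z : Eu d | 1 / (d : ℝ) / t ≤ fderiv ℝ p z x} := fun x =>
    measurableSet_le measurable_const (measurable_fderiv_apply_const ℝ p x)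
  have hsteep : ∑ i, volume {z : Eu d | p z ≤ 1 ∧ 1 / (d : ℝ) / t ≤ fderiv ℝ p z (P (u i))}
      ≤ Fintype.card ι * (ENNReal.ofReal X * V) := by
    have e1 : ∀ i, volume {z : Eu d | p z ≤ 1 ∧ 1 / (d : ℝ) / t ≤ fderiv ℝ p z (P (u i))}
        = ∫⁻ z in {y : Eu d | p y ≤ 1},
          ({z : Eu d | 1 / (d : ℝ) / t ≤ fderiv ℝ p z (P (u i))}).indicator 1 z := by
      intro i
      rw [lintegral_indicator_one (hfm _), Measure.restrict_apply (hfm _), inter_comm]
      rfl
    simp only [e1]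
    rw [← lintegral_finsetSum _ fun i _ => measurable_one.indicator (hfm _)]
    calc ∫⁻ z in {y : Eu d | p y ≤ 1}, ∑ i,
          ({z : Eu d | 1 / (d : ℝ) / t ≤ fderiv ℝ p z (P (u i))}).indicator 1 z
        ≤ ∫⁻ _ in {y : Eu d | p y ≤ 1}, Fintype.card ι * ENNReal.ofReal X := by
          refine lintegral_mono fun z => ?_
          have h1 := tail_count p hcont h0 hfin u hu r q D hr0 hr1 hq hD
            ((fderiv ℝ p z).comp PL) η hη0 (hη (fderiv ℝ p z) (fderiv_abs_le p z)) (1 / d / t)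
          have h2 : ∑ i, ({z : Eu d | 1 / (d : ℝ) / t ≤ fderiv ℝ p z (P (u i))}).indicator
              (1 : Eu d → ℝ≥0∞) z
              = ENNReal.ofReal (∑ i, (if 1 / (d : ℝ) / t ≤ fderiv ℝ p z (P (u i))
                then (1 : ℝ) else 0)) := by
            rw [ENNReal.ofReal_sum_of_nonneg fun i _ => by split_ifs <;> norm_num]
            refine Finset.sum_congr rfl fun i _ => ?_
            simp only [indicator_apply, mem_ofPred_eq, Pi.one_apply]
            split_ifs <;> simp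
          show ∑ i, ({z : Eu d | 1 / (d : ℝ) / t ≤ fderiv ℝ p z (P (u i))}).indicator
              (1 : Eu d → ℝ≥0∞) z ≤ _
          rw [h2, ← ENNReal.ofReal_natCast, ← ENNReal.ofReal_mul (by positivity)]
          apply ENNReal.ofReal_le_ofReal
          refine h1.trans (le_of_eq ?_)
          rw [hX]
          ring
      _ = _ := by rw [setLIntegral_const]; ring
  calc ∑ i, volume {z : Eu d | p z ≤ 1 ∧ 1 + 1 / (d : ℝ) ≤ p (z + t • P (u i))}
      ≤ ∑ i, M * ENNReal.ofReal ((1 + 1 / (d : ℝ) + 1 / d) ^ d) *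
        volume {z : Eu d | p z ≤ 1 ∧ 1 / (d : ℝ) / t ≤ fderiv ℝ p z (P (u i))} := by
        refine Finset.sum_le_sum fun i _ => ?_
        refine escape_steep p hcont (P (u i)) R ?_ t (1 / d) (1 / d) ht (by positivity)
          (by positivity) M hMpos ?_
        · calc p (P (u i)) ≤ R * p (u i) := hR _
            _ ≤ R * 1 := by
                gcongr
                exact hu i
            _ = R := mul_one R
        · rw [mul_one_div, le_div_iff₀ hd0]
          exact hM1
    _ = M * ENNReal.ofReal ((1 + 1 / (d : ℝ) + 1 / d) ^ d) *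
        ∑ i, volume {z : Eu d | p z ≤ 1 ∧ 1 / (d : ℝ) / t ≤ fderiv ℝ p z (P (u i))} := by
        rw [Finset.mul_sum]
    _ ≤ M * ENNReal.ofReal ((1 + 1 / (d : ℝ) + 1 / d) ^ d) *
        (Fintype.card ι * (ENNReal.ofReal X * V)) := by gcongr
    _ ≤ ENNReal.ofReal (t * R * d + 2) * ENNReal.ofReal (Real.exp 2) *
        (Fintype.card ι * (ENNReal.ofReal X * V)) := by
        refine mul_le_mul' (mul_le_mul' ?_ (ENNReal.ofReal_le_ofReal ?_)) le_rfl
        · rw [← ENNReal.ofReal_natCast]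
          exact ENNReal.ofReal_le_ofReal hM2
        · calc (1 + 1 / (d : ℝ) + 1 / d) ^ d ≤ Real.exp (2 / d) ^ d := by
                gcongr
                have := Real.add_one_le_exp (2 / (d : ℝ))
                have e1 : 2 / (d : ℝ) = 1 / d + 1 / d := by ring
                linarith
            _ = Real.exp 2 := by
                rw [← Real.exp_nat_mul]
                congr 1
                field_simp
    _ = _ := by
        rw [ENNReal.ofReal_mul (p := (t * R * d + 2) * Real.exp 2) (by positivity),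
          ENNReal.ofReal_mul (p := t * R * d + 2) (by positivity)]
        ring

/-- The core contradiction. -/
theorem core2 {ι : Type*} [Fintype ι] [Nonempty ι] (hd : 2 ≤ d)
    (p : Seminorm ℝ (Eu d)) (hcont : Continuous p)
    (h0 : volume {y : Eu d | p y ≤ 1} ≠ 0)
    (hfin : volume {y : Eu d | p y ≤ 1} ≠ ⊤)
    (P : Eu d →ₗ[ℝ] Eu d) (hP : ∀ x, P (P x) = P x) (k : ℕ) (hk : finrank ℝ (LinearMap.range P) = k)
    (R η lam : ℝ) (j : ℕ) (hR0 : 0 ≤ R) (hR : ∀ x, p (P x) ≤ R * p x) (hη0 : 0 < η)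
    (hη : ∀ φ : Eu d →L[ℝ] ℝ, (∀ y, |φ y| ≤ p y) →
      ∫⁻ z in {y : Eu d | p y ≤ 1}, ENNReal.ofReal |φ (P z)|
        ≤ ENNReal.ofReal η * volume {y : Eu d | p y ≤ 1})
    (hlam1 : 1 ≤ lam) (hj : 11 ≤ j) (hjk : 3 * j * lam ≤ k)
    (h2j : 3000 * j ^ 3 * lam * d * R ≤ k * 2 ^ j) (hH : 500 * j ^ 3 * lam ^ 2 * d * η ≤ k)
    (u : ι → Eu d) (hu : ∀ i, p (u i) ≤ 1) (θ : ℝ)
    (hθ : θ = Real.exp lam / 3 * ((1 - 1 / (d : ℝ)) / 2) ^ d)
    (hq : ∀ y : Eu d,
      (∑ i : ι, if p (u i - y) ≤ 1 - 1 / (d : ℝ) then (1 : ℝ) else 0) ≤ θ * Fintype.card ι) :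
    False := by
  classical
  set V := volume {y : Eu d | p y ≤ 1} with hV
  have hd' : (2 : ℝ) ≤ d := by exact_mod_cast hd
  have hd0 : (0 : ℝ) < d := by linarith
  set r : ℝ := 1 - 1 / (d : ℝ) with hr
  have hdi : 1 / (d : ℝ) ≤ 1 / 2 := one_div_le_one_div_of_le (by norm_num) hd'
  have hdi0 : 0 < 1 / (d : ℝ) := by positivity
  have hr2 : 1 / 2 ≤ r := by rw [hr]; linarith
  have hr0 : 0 < r := by linarith
  have hr1 : r ≤ 1 := by rw [hr]; linarith
  have hj11 : (11 : ℝ) ≤ j := by exact_mod_cast hj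
  have hj0 : (0 : ℝ) < j := by linarith
  have hlam0 : 0 < lam := by linarith
  set D : ℝ := Real.exp lam / 3 with hD
  have hD0 : 0 < D := by positivity
  have hm : (0 : ℝ) < Fintype.card ι := by exact_mod_cast Fintype.card_pos
  have hqD : θ * Fintype.card ι * 2 ^ d = D * Fintype.card ι * r ^ d := by
    rw [hθ, div_pow]
    field_simp
  -- ranks
  have hrank : finrank ℝ (LinearMap.range P) + finrank ℝ (LinearMap.ker P) = d := by
    rw [LinearMap.finrank_range_add_finrank_ker, finrank_euclideanSpace_fin]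
  have hkd : k ≤ d := by omega
  have hker : finrank ℝ (LinearMap.ker P) = d - k := by omega
  have hkd' : (k : ℝ) ≤ d := by exact_mod_cast hkd
  have hjlam : 0 < (j : ℝ) * lam := by positivity
  have hk0 : (0 : ℝ) < k := by
    have : 0 < 3 * (j : ℝ) * lam := by positivity
    linarith
  -- parameters
  set A : ℝ := j * lam with hA
  have hA11 : 11 ≤ A := by
    rw [hA]
    nlinarith
  set τ : ℝ := 3 * A / k with hτ
  have hτ0 : 0 < τ := by positivity
  have hτ1 : τ ≤ 1 := by
    rw [hτ, div_le_one hk0, hA]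
    linarith
  set s : ℝ := 3 / 4 * A / d with hs
  have hs0 : 0 < s := by positivity
  have hs1 : s ≤ 1 / 4 := by
    rw [hs, div_le_iff₀ hd0, hA]
    linarith
  set α : ℝ := r / (1 + r) with hα
  have hα0 : 0 < α := by positivity
  have hα2 : α ≤ 1 / 2 := by
    rw [hα, div_le_div_iff₀ (by positivity) (by norm_num)]
    linarith
  have hsτ : s / τ = k / (4 * d) := by
    rw [hs, hτ]
    field_simp
  have h1s : 0 < 1 - s := by linarith
  set t : ℝ := 20 * j ^ 2 * lam / k with ht
  have ht0 : 0 < t := by positivity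
  -- determinant
  have hdet : Real.exp A ≤ |LinearMap.det ((1 - s) • (LinearMap.id : Eu d →ₗ[ℝ] Eu d) + τ • P)| := by
    rw [det_idem P hP, hk, hker]
    refine det_lower d k hkd s τ A hτ0.le hτ1 hs0.le hs1 ?_ ?_ (by positivity)
    · rw [hτ]; field_simp
    · rw [hs]; field_simp
  set Y : ℝ := 3 * D * Real.exp (-(Real.log 2 / (8 * η) * (1 / d / t))) with hY
  have hY0 : 0 < Y := by positivity
  set κ : ℝ := (t * R * d + 2) * Real.exp 2 * Y with hκ
  have hκ0 : 0 ≤ κ := by positivity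
  have hesc := esc_bound hd p hcont h0 hfin u hu r _ D hr0 hr1 hD0 hq hqD.le P R η t ht0 hR0 hR
    hη0 hη
  have hcount := count2 p hcont h0 hfin u hu r _ D hr0 hr1 hD0 hq hqD.le P s τ R t (1 / d)
    (Real.exp A) κ hs0 (by linarith) hτ0 ht0 (by positivity) hR0 hR (Real.exp_pos _) hdet j
    (by
      have e : s * r / (4 * τ) = (s / τ) * r / 4 := by field_simp
      rw [e, hsτ]
      have h1 : α ^ j ≤ 1 / 2 ^ j := by
        calc α ^ j ≤ (1 / 2) ^ j := by gcongr
          _ = _ := by rw [one_div_pow]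
      calc α ^ j * R ≤ 1 / 2 ^ j * R := by gcongr
        _ ≤ (k : ℝ) / (4 * d) * (1 / 2) / 4 := by
            rw [div_mul_eq_mul_div, div_le_iff₀ (by positivity)]
            have e3 : (k : ℝ) / (4 * d) * (1 / 2) / 4 * 2 ^ j = (k * 2 ^ j) / (32 * d) := by
              field_simp
              norm_num
            rw [e3, le_div_iff₀ (by positivity)]
            refine le_trans ?_ h2j
            have h3 : 1 ≤ (j : ℝ) ^ 3 * lam := by
              calc (1 : ℝ) = 1 ^ 3 * 1 := by norm_num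
                _ ≤ (j : ℝ) ^ 3 * lam := by gcongr; linarith
            have h4 : 0 ≤ d * R := by positivity
            calc 1 * R * (32 * d) = 32 * (d * R) := by ring
              _ ≤ 3000 * ((j : ℝ) ^ 3 * lam) * (d * R) := by
                  gcongr
                  linarith
              _ = _ := by ring
        _ ≤ _ := by gcongr)
    (by
      rw [div_le_iff₀ h1s, ht, hτ]
      have e1 : 4 * j * (3 * A / k) = 12 * j ^ 2 * lam / k := by rw [hA]; ring
      rw [e1]
      have h1 : 0 < (j : ℝ) ^ 2 * lam / k := by positivity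
      have e2 : 20 * j ^ 2 * lam / k * (1 - s) = 20 * (1 - s) * (j ^ 2 * lam / k) := by ring
      have e3 : 12 * j ^ 2 * lam / k = 12 * (j ^ 2 * lam / k) := by ring
      rw [e2, e3]
      gcongr
      linarith)
    (by
      have e : (1 : ℝ) + 1 / d - r = 2 / d := by rw [hr]; ring
      rw [e]
      have e1 : 4 * (2 / (d : ℝ)) * τ / (s * r) = 8 / (d * (s / τ) * r) := by
        field_simp
        norm_num
      rw [e1, hsτ, ht]
      have e2 : 8 / (d * ((k : ℝ) / (4 * d)) * r) = 32 / (k * r) := by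
        field_simp
        norm_num
      rw [e2, div_le_div_iff₀ (by positivity) hk0]
      have h1 : (64 : ℝ) ≤ 20 * j ^ 2 * lam := by nlinarith
      calc 32 * (k : ℝ) = 64 * (k * (1 / 2)) := by ring
        _ ≤ 20 * j ^ 2 * lam * (k * r) := by gcongr)
    hκ0 hesc
  -- numerics
  have hSD : ∑ l ∈ Finset.range j, D ^ l ≤ j * Real.exp ((j - 1) * lam) := by
    calc ∑ l ∈ Finset.range j, D ^ l ≤ ∑ _l ∈ Finset.range j, Real.exp ((j - 1) * lam) := by
          refine Finset.sum_le_sum fun l hl => ?_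
          rw [Finset.mem_range] at hl
          have hl' : (l : ℝ) ≤ j - 1 := by
            have : (l : ℝ) + 1 ≤ j := by exact_mod_cast hl
            linarith
          calc D ^ l ≤ Real.exp lam ^ l := by
                gcongr
                rw [hD]
                have := Real.exp_pos lam
                linarith
            _ = Real.exp (l * lam) := by rw [← Real.exp_nat_mul]
            _ ≤ _ := by
                apply Real.exp_le_exp.mpr
                gcongr
      _ = _ := by rw [Finset.sum_const, Finset.card_range, nsmul_eq_mul]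
  have hexp2 : Real.exp 2 ≤ 7.4 := by
    have h1 := Real.exp_one_lt_d9
    have h2 : Real.exp 2 = Real.exp 1 * Real.exp 1 := by rw [← Real.exp_add]; norm_num
    rw [h2]
    have h3 := Real.exp_pos 1
    nlinarith
  have hl2 := Real.log_two_gt_d9
  have hX : 2.1 * A ≤ Real.log 2 / (8 * η) * (1 / d / t) := by
    have e1 : Real.log 2 / (8 * η) * (1 / d / t)
        = Real.log 2 * k / (160 * (j ^ 2 * lam * d * η)) := by
      rw [ht]
      field_simp
      norm_num
    rw [e1, le_div_iff₀ (by positivity)]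
    calc 2.1 * A * (160 * (j ^ 2 * lam * d * η))
        = 336 * (j ^ 3 * lam ^ 2 * d * η) := by rw [hA]; ring
      _ ≤ 0.693 * (500 * (j ^ 3 * lam ^ 2 * d * η)) := by
          have : 0 < (j : ℝ) ^ 3 * lam ^ 2 * d * η := by positivity
          linarith
      _ = 0.693 * (500 * j ^ 3 * lam ^ 2 * d * η) := by ring
      _ ≤ 0.693 * k := by gcongr
      _ ≤ Real.log 2 * k := by
          gcongr
          linarith
  have hmain : κ * ∑ l ∈ Finset.range j, D ^ l ≤ 0.1 := by
    have hM : (t * R * d + 2) * j ≤ 2 ^ j / 37 := by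
      have h1 : t * R * d * j = 20 * (3000 * j ^ 3 * lam * d * R) / (3000 * k) := by
        rw [ht]
        field_simp
      have h2 : t * R * d * j ≤ 2 ^ j / 150 := by
        rw [h1, div_le_div_iff₀ (by positivity) (by norm_num)]
        calc 20 * (3000 * j ^ 3 * lam * d * R) * 150 ≤ 20 * (k * 2 ^ j) * 150 := by gcongr
          _ = _ := by ring
      have h3 := two_pow_big j hj
      have h4 : (0 : ℝ) < 2 ^ j := by positivity
      nlinarith
    have h1 : κ * ∑ l ∈ Finset.range j, D ^ l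
        ≤ ((t * R * d + 2) * j) * 7.4 * (Y * Real.exp ((j - 1) * lam)) := by
      calc κ * ∑ l ∈ Finset.range j, D ^ l ≤ κ * (j * Real.exp ((j - 1) * lam)) := by gcongr
        _ = ((t * R * d + 2) * j) * Real.exp 2 * (Y * Real.exp ((j - 1) * lam)) := by
            rw [hκ]; ring
        _ ≤ _ := by gcongr
    have h2 : Y * Real.exp ((j - 1) * lam) ≤ Real.exp (-(j : ℝ)) := by
      have e1 : 3 * D = Real.exp lam := by rw [hD]; ring
      rw [hY, e1, ← Real.exp_add, ← Real.exp_add]
      apply Real.exp_le_exp.mpr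
      have e2 : lam + -(Real.log 2 / (8 * η) * (1 / d / t)) + (j - 1) * lam
          = A - Real.log 2 / (8 * η) * (1 / d / t) := by rw [hA]; ring
      rw [e2]
      have h3 : (j : ℝ) ≤ A := by
        rw [hA]
        nlinarith
      linarith
    have h3 : Real.exp (-(j : ℝ)) ≤ 1 / 2 ^ j := by
      have e1 : Real.exp (-(j : ℝ)) = (Real.exp (-1)) ^ j := by
        rw [← Real.exp_nat_mul]
        congr 1
        ring
      rw [e1, ← one_div_pow]
      gcongr
      rw [Real.exp_neg, inv_le_comm₀ (Real.exp_pos _) (by norm_num)]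
      have := Real.exp_one_gt_d9
      norm_num
      linarith
    have h5 : Real.exp (-(j : ℝ)) * 2 ^ j ≤ 0.4 := by
      have e1 : Real.exp (-(j : ℝ)) * 2 ^ j = (Real.exp (-1) * 2) ^ j := by
        rw [mul_pow, ← Real.exp_nat_mul]
        congr 2
        ring
      have h6 : Real.exp (-1) * 2 ≤ 0.75 := by
        rw [Real.exp_neg]
        have := Real.exp_one_gt_d9
        rw [inv_mul_le_iff₀ (Real.exp_pos _)]
        linarith
      rw [e1]
      calc (Real.exp (-1) * 2) ^ j ≤ 0.75 ^ j := by gcongr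
        _ ≤ 0.75 ^ 11 := pow_le_pow_of_le_one (by norm_num) (by norm_num) hj
        _ ≤ 0.4 := by norm_num
    calc κ * ∑ l ∈ Finset.range j, D ^ l
        ≤ ((t * R * d + 2) * j) * 7.4 * (Y * Real.exp ((j - 1) * lam)) := h1
      _ ≤ (2 ^ j / 37) * 7.4 * Real.exp (-(j : ℝ)) := by gcongr
      _ = 0.2 * (Real.exp (-(j : ℝ)) * 2 ^ j) := by ring
      _ ≤ 0.2 * 0.4 := by gcongr
      _ ≤ 0.1 := by norm_num
  have hDj : D ^ j / Real.exp A ≤ 1 / 3 := by
    have e1 : D ^ j = Real.exp A / 3 ^ j := by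
      rw [hD, div_pow, ← Real.exp_nat_mul, hA]
    rw [e1]
    have h3j : (3 : ℝ) ≤ 3 ^ j := by
      calc (3 : ℝ) = 3 ^ 1 := by norm_num
        _ ≤ 3 ^ j := pow_le_pow_right₀ (by norm_num) (by omega)
    have := Real.exp_pos A
    rw [div_div, div_le_div_iff₀ (by positivity) (by norm_num)]
    nlinarith
  have hrd := quarter_le d hd
  rw [← hr] at hrd
  have h5 : (1 / 4 : ℝ) * (1 - 1 / 3) ≤ r ^ d * (1 - D ^ j / Real.exp A) := by
    apply mul_le_mul hrd (by linarith) (by norm_num) (by positivity)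
  have := h5.trans (hcount.trans hmain)
  norm_num at this

/-- The section criterion (covering form). -/
theorem cover_section (hd : 2 ≤ d)
    (p : Seminorm ℝ (Eu d)) (hcont : Continuous p)
    (h0 : volume {y : Eu d | p y ≤ 1} ≠ 0)
    (hfin : volume {y : Eu d | p y ≤ 1} ≠ ⊤)
    (P : Eu d →ₗ[ℝ] Eu d) (hP : ∀ x, P (P x) = P x) (k : ℕ) (hk : finrank ℝ (LinearMap.range P) = k)
    (R η lam : ℝ) (j : ℕ) (hR0 : 0 ≤ R) (hR : ∀ x, p (P x) ≤ R * p x) (hη0 : 0 < η)
    (hη : ∀ φ : Eu d →L[ℝ] ℝ, (∀ y, |φ y| ≤ p y) →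
      ∫⁻ z in {y : Eu d | p y ≤ 1}, ENNReal.ofReal |φ (P z)|
        ≤ ENNReal.ofReal η * volume {y : Eu d | p y ≤ 1})
    (hlam1 : 1 ≤ lam) (hj : 11 ≤ j) (hjk : 3 * j * lam ≤ k)
    (h2j : 3000 * j ^ 3 * lam * d * R ≤ k * 2 ^ j) (hH : 500 * j ^ 3 * lam ^ 2 * d * η ≤ k) :
    Good p lam := by
  classical
  have hd' : (2 : ℝ) ≤ d := by exact_mod_cast hd
  have hdi : 1 / (d : ℝ) ≤ 1 / 2 := one_div_le_one_div_of_le (by norm_num) hd'
  have hdi0 : 0 < 1 / (d : ℝ) := by positivity
  set x : ℝ := 1 / (d : ℝ) with hx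
  set θ : ℝ := Real.exp lam / 3 * ((1 - x) / 2) ^ d with hθ
  have hθ0 : 0 < θ := by
    have : 0 < 1 - x := by linarith
    positivity
  have hcore : ∀ {ι : Type} [Fintype ι] [Nonempty ι] (u : ι → Eu d), (∀ i, p (u i) ≤ 1) →
      (∀ y : Eu d, (∑ i : ι, if p (u i - y) ≤ 1 - 1 / (d : ℝ) then (1 : ℝ) else 0)
        ≤ θ * Fintype.card ι) → False := fun u hu hq =>
    core2 hd p hcont h0 hfin P hP k hk R η lam j hR0 hR hη0 hη hlam1 hj hjk h2j hH u hu θ hθ hq
  have hθ1 : θ ≤ 1 := by
    by_contra hcon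
    push Not at hcon
    refine hcore (ι := Unit) (fun _ => 0) (by simp) ?_
    intro y
    simp only [Finset.univ_unique, Finset.sum_singleton, Fintype.card_unit, Nat.cast_one, mul_one]
    split_ifs <;> linarith
  obtain ⟨S, hS1, hS2, hS3⟩ := Pool.Agent.H815R2.Had.exists_net volume p hcont h0 hfin (x / 2)
    (by positivity)
  rw [finrank_euclideanSpace_fin] at hS3
  have hM : (1 + 2 / (x / 2)) = 4 * d + 1 := by
    rw [hx]
    field_simp
    ring
  rw [hM] at hS3
  obtain ⟨Y, hY1, hY2⟩ := Pool.Agent.H815R2.Had.greedy_cover (S := S)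
    (E := Eu d) (fun y s => p ((s : Eu d) - y) ≤ 1 - x) θ
    hθ0 hθ1 (by
      intro A hA
      have : Nonempty A := hA.to_subtype
      by_contra hcon
      push Not at hcon
      refine core2 (ι := A) hd p hcont h0 hfin P hP k hk R η lam j hR0 hR hη0 hη hlam1 hj hjk h2j hH
        (fun a => ((a : S) : Eu d)) (fun a => hS1 _ (a : S).2) θ hθ ?_
      intro y
      have h1 := hcon y
      rw [Fintype.card_coe]
      refine le_trans (le_of_eq ?_) h1.le
      rw [Finset.card_filter]
      push_cast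
      rw [← Finset.sum_coe_sort A])
    ((4 * d + 1) ^ d) (by rw [Fintype.card_coe]; exact hS3)
    (one_le_pow₀ (by linarith))
  refine ⟨Y, hY1.trans ?_, ?_⟩
  · rw [Real.log_pow]
    have hq := quarter_le d hd
    rw [← hx] at hq
    have hlogpos : 0 ≤ Real.log (4 * d + 1) := Real.log_nonneg (by linarith)
    have h1 : 1 / θ ≤ 12 * 2 ^ d * Real.exp (-lam) := by
      rw [hθ, div_pow, Real.exp_neg]
      have he := Real.exp_pos lam
      have hpow : 0 < (1 - x) ^ d := by linarith
      rw [div_le_iff₀ (by positivity)]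
      have : 12 * 2 ^ d * (Real.exp lam)⁻¹ * (Real.exp lam / 3 * ((1 - x) ^ d / 2 ^ d))
          = 4 * (1 - x) ^ d := by
        field_simp
        ring
      rw [this]
      linarith
    calc (d : ℝ) * Real.log (4 * d + 1) / θ + 1
        = (d : ℝ) * Real.log (4 * d + 1) * (1 / θ) + 1 := by ring
      _ ≤ (d : ℝ) * Real.log (4 * d + 1) * (12 * 2 ^ d * Real.exp (-lam)) + 1 := by gcongr
      _ = _ := by ring
  · intro x' hx'
    obtain ⟨s, hs, hxs⟩ := hS2 x' hx'
    obtain ⟨y, hy, hsy⟩ := hY2 ⟨s, hs⟩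
    refine ⟨y, hy, ?_⟩
    calc p (x' - y) = p ((x' - s) + (s - y)) := by congr 1; abel
      _ ≤ p (x' - s) + p (s - y) := map_add_le_add _ _ _
      _ ≤ x / 2 + (1 - x) := add_le_add hxs hsy
      _ < 1 := by linarith

end Pool.Agent.J4H21.SC
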