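import Mathlib
import Pool.Agent.J4H21.SC.Main
import Pool.Agent.J4H21.FL.Greedy

set_option autoImplicit false

/-!
Uncovered bodies in isotropic position: every subspace contains a unit vector of a large norm.
-/

namespace Pool.Agent.J4H21.SC

open MeasureTheory Set Module
open scoped ENNReal Pointwise NNReal
open Pool.Agent.H815R2.Flat Pool.Agent.J4H21.FL

variable {d : ℕ}

/-- the lower bound for the norm -/
noncomputable def tau2 (d : ℕ) (lam : ℝ) (k : ℕ) : ℝ :=
  ((k : ℝ) / d) / (7 * 10 ^ 5 * lam ^ 2 * Real.log (d + 1) ^ 3)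

theorem step2 (hd : 2 ≤ d) (p : Seminorm ℝ (Eu d)) (hcont : Continuous p)
    (h0 : volume {y : Eu d | p y ≤ 1} ≠ 0)
    (hfin : volume {y : Eu d | p y ≤ 1} ≠ ⊤) (hiso : Iso p) (lam : ℝ)
    (hlam : 1 ≤ lam) (F : Submodule ℝ (Eu d)) (k : ℕ)
    (hk : finrank ℝ F = k) (hk1 : 1 ≤ k) (hnot : ¬ Good p lam) :
    ∃ φ : Eu d →ₗ[ℝ] ℝ, (∀ x, |φ x| ≤ p x) ∧ ∃ x ∈ F, ‖x‖ = 1 ∧
      (∀ y ∈ F, φ y = φ x * inner ℝ x y) ∧ tau2 d lam k ≤ φ x := by
  have hd' : (2 : ℝ) ≤ d := by exact_mod_cast hd
  have hd0 : (0 : ℝ) < d := by linarith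
  have hk1' : (1 : ℝ) ≤ k := by exact_mod_cast hk1
  have hk0 : (0 : ℝ) < k := by linarith
  have hlam0 : 0 < lam := by linarith
  set L : ℝ := Real.log (d + 1) with hL
  have hL1 : 1.098 ≤ L := by
    have h1 : Real.log 3 ≤ L := Real.log_le_log (by norm_num) (by linarith)
    have h2 : (1.098 : ℝ) ≤ Real.log 3 := by
      rw [Real.le_log_iff_exp_le (by norm_num)]
      have h3 := Real.exp_one_lt_d9
      have h4 : Real.exp 1.098 = Real.exp 1 * Real.exp 0.098 := by
        rw [← Real.exp_add]; norm_num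
      have h5 : Real.exp 0.098 ≤ 1.10306 := by
        have h6 := Real.exp_bound' (x := 0.098) (by norm_num) (by norm_num) (n := 4) (by norm_num)
        refine h6.trans ?_
        norm_num [Finset.sum_range_succ, Nat.factorial]
      rw [h4]
      have h7 := Real.exp_pos 1
      have h8 := Real.exp_pos 0.098
      nlinarith
    linarith
  have hL0 : 0 < L := by linarith
  have hτ0 : 0 < tau2 d lam k := by
    unfold tau2
    rw [← hL]
    positivity
  have hkd : (k : ℝ) ≤ d := by
    have h1 : finrank ℝ F ≤ finrank ℝ (Eu d) := Submodule.finrank_le F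
    rw [finrank_euclideanSpace_fin, hk] at h1
    exact_mod_cast h1
  -- the number of steps
  set j : ℕ := ⌈10 * L⌉₊ with hj
  have hj1 : 10 * L ≤ j := Nat.le_ceil _
  have hj2 : (j : ℝ) < 10 * L + 1 := Nat.ceil_lt_add_one (by positivity)
  have hj11 : 11 ≤ j := by
    have h1 : (10 : ℝ) < j := by linarith
    have h2 : 10 < j := by exact_mod_cast h1
    omega
  have hj11' : (11 : ℝ) ≤ j := by exact_mod_cast hj11
  have hj3 : (j : ℝ) ≤ 11 * L := by linarith
  by_cases hcase : 3 * j * lam ≤ k
  · -- the criterion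
    set t : ℝ := k / (500 * j ^ 3 * lam ^ 2 * d) with ht
    have hj0 : (0 : ℝ) < j := by linarith
    have ht0 : 0 < t := by positivity
    have htτ : tau2 d lam k ≤ t := by
      unfold tau2
      rw [ht, ← hL, div_div, div_le_div_iff₀ (by positivity) (by positivity)]
      have h2 : (j : ℝ) ^ 3 ≤ (11 * L) ^ 3 := by gcongr
      calc (k : ℝ) * (500 * j ^ 3 * lam ^ 2 * d)
          = j ^ 3 * (500 * lam ^ 2 * d * k) := by ring
        _ ≤ (11 * L) ^ 3 * (500 * lam ^ 2 * d * k) := by gcongr
        _ = 665500 * (L ^ 3 * lam ^ 2 * d * k) := by ring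
        _ ≤ 700000 * (L ^ 3 * lam ^ 2 * d * k) := by
            have : 0 < L ^ 3 * lam ^ 2 * d * k := by positivity
            linarith
        _ = _ := by ring
    have hex : ∃ φ : Eu d →L[ℝ] ℝ, (∀ y, |φ y| ≤ p y) ∧ ∃ v : Eu d, (∀ x, φ x = inner ℝ v x) ∧
        t ≤ ‖F.starProjection v‖ := by
      by_contra hcon
      push Not at hcon
      apply hnot
      refine cover_section hd p hcont h0 hfin (F.starProjection : Eu d →ₗ[ℝ] Eu d) ?_ k ?_
        (8 * (d + 2)) t lam j (by positivity) ?_ ht0 ?_ hlam hj11 hcase ?_ ?_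
      · intro x
        show F.starProjection (F.starProjection x) = F.starProjection x
        exact Submodule.starProjection_eq_self_iff.2 (F.starProjection_apply_mem x)
      · have : LinearMap.range (F.starProjection : Eu d →ₗ[ℝ] Eu d) = F :=
          Submodule.range_starProjection F
        rw [this, hk]
      · intro x
        show p (F.starProjection x) ≤ _
        calc p (F.starProjection x) ≤ ‖F.starProjection x‖ := iso_upper p hcont h0 hfin hiso _
          _ ≤ ‖x‖ := F.norm_starProjection_apply_le x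
          _ ≤ _ := iso_lower p hcont h0 hfin hiso x
      · intro φ hφ
        obtain ⟨v, hv⟩ := exists_riesz (φ : Eu d →ₗ[ℝ] ℝ)
        have h1 := hcon φ hφ v hv
        have h2 : ∀ z' : Eu d, φ ((F.starProjection : Eu d →ₗ[ℝ] Eu d) z')
            = inner ℝ (F.starProjection v) z' := by
          intro z'
          have h3 := hv (F.starProjection z')
          rw [inner_star] at h3
          exact h3
        simp only [h2]
        refine (iso_first p hiso (F.starProjection v)).trans ?_
        gcongr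
      · -- the number of steps is large
        have h33 : (33 : ℝ) ≤ d := by
          have : 3 * (j : ℝ) * 1 ≤ 3 * j * lam := by gcongr
          linarith
        have hjd : (j : ℝ) ≤ d / 3 := by
          have : 3 * (j : ℝ) * 1 ≤ 3 * j * lam := by gcongr
          linarith
        have h2j : ((d : ℝ) + 1) ^ 6 ≤ 2 ^ j := by
          have h1 : ((d : ℝ) + 1) ^ 6 = Real.exp (6 * L) := by
            rw [hL, show 6 * Real.log ((d : ℝ) + 1) = Real.log (((d : ℝ) + 1) ^ 6) by
              rw [Real.log_pow]; norm_num, Real.exp_log (by positivity)]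
          have h2 : (2 : ℝ) ^ j = Real.exp (j * Real.log 2) := by
            rw [mul_comm, ← Real.rpow_natCast, Real.rpow_def_of_pos (by norm_num)]
          rw [h1, h2]
          apply Real.exp_le_exp.mpr
          have h3 := Real.log_two_gt_d9
          calc 6 * L ≤ 10 * L * 0.6 := by linarith
            _ ≤ j * Real.log 2 := by
                gcongr
                linarith
        have h4 : 3 * (j : ℝ) * lam * (1000 * j ^ 2 * d * (8 * (d + 2)))
            ≤ k * (1000 * j ^ 2 * d * (8 * (d + 2))) := by gcongr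
        have h5 : 1000 * (j : ℝ) ^ 2 * d * (8 * (d + 2)) ≤ ((d : ℝ) + 1) ^ 6 := by
          calc 1000 * (j : ℝ) ^ 2 * d * (8 * (d + 2))
              ≤ 1000 * ((d : ℝ) / 3) ^ 2 * d * (8 * (d + 2)) := by gcongr
            _ = (8000 / 9) * ((d : ℝ) ^ 2 * ((d : ℝ) * (d + 2))) := by ring
            _ ≤ ((d : ℝ) + 1) ^ 2 * (((d : ℝ) + 1) ^ 2 * ((d : ℝ) + 1) ^ 2) := by
                apply mul_le_mul
                · nlinarith
                · apply mul_le_mul
                  · nlinarith
                  · nlinarith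
                  · positivity
                  · positivity
                · positivity
                · positivity
            _ = ((d : ℝ) + 1) ^ 6 := by ring
        calc 3000 * (j : ℝ) ^ 3 * lam * d * (8 * (d + 2))
            = 3 * (j : ℝ) * lam * (1000 * (j : ℝ) ^ 2 * d * (8 * (d + 2))) := by ring
          _ ≤ (k : ℝ) * (1000 * (j : ℝ) ^ 2 * d * (8 * (d + 2))) := h4
          _ ≤ (k : ℝ) * ((d : ℝ) + 1) ^ 6 := by gcongr
          _ ≤ (k : ℝ) * 2 ^ j := by gcongr
      · rw [ht]
        apply le_of_eq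
        field_simp
    obtain ⟨φ, hφ, v, hv, hw⟩ := hex
    obtain ⟨φ', h1, x, h2, h3, h4, h5⟩ := from_vec p F (φ : Eu d →ₗ[ℝ] ℝ)
      (fun x => (le_abs_self _).trans (hφ x)) v (fun x => hv x) t ht0 hw
    exact ⟨φ', h1, x, h2, h3, h4, htτ.trans h5⟩
  · -- small dimension
    push Not at hcase
    have hkL : (k : ℝ) ≤ 33 * L * lam := by
      refine hcase.le.trans ?_
      nlinarith
    have hne : F ≠ ⊥ := by
      rintro rfl
      rw [finrank_bot] at hk
      omega
    obtain ⟨x₁, hx₁F, hx₁⟩ := Submodule.exists_mem_ne_zero_of_ne_bot hne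
    set x₀ : Eu d := ‖x₁‖⁻¹ • x₁ with hx₀
    have hx₀F : x₀ ∈ F := F.smul_mem _ hx₁F
    have hx₀1 : ‖x₀‖ = 1 := by
      rw [hx₀, norm_smul, norm_inv, norm_norm, inv_mul_cancel₀ (norm_ne_zero_iff.2 hx₁)]
    obtain ⟨φ, hφ1, hφ2⟩ := exists_norming p x₀
    obtain ⟨v, hv⟩ := exists_riesz φ
    have hw : 1 / (8 * ((d : ℝ) + 2)) ≤ ‖F.starProjection v‖ := by
      have h1 := iso_lower p hcont h0 hfin hiso x₀
      rw [hx₀1] at h1
      have h2 : φ x₀ = inner ℝ (F.starProjection v) x₀ := by
        rw [hv, ← inner_star, Submodule.starProjection_eq_self_iff.2 hx₀F]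
      rw [div_le_iff₀ (by positivity)]
      calc 1 ≤ 8 * ((d : ℝ) + 2) * p x₀ := h1
        _ = 8 * ((d : ℝ) + 2) * inner ℝ (F.starProjection v) x₀ := by rw [← hφ1, h2]
        _ ≤ 8 * ((d : ℝ) + 2) * (‖F.starProjection v‖ * ‖x₀‖) := by
            gcongr
            exact real_inner_le_norm _ _
        _ = _ := by rw [hx₀1]; ring
    obtain ⟨φ, h1, x, h2, h3, h4, h5⟩ := from_vec p F φ hφ2 v hv _ (by positivity) hw
    refine ⟨φ, h1, x, h2, h3, h4, le_trans ?_ h5⟩
    unfold tau2
    rw [← hL, div_div, div_le_div_iff₀ (by positivity) (by positivity)]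
    have hlam2 : lam ≤ lam ^ 2 := by nlinarith
    have hL3 : L ≤ L ^ 3 := by
      calc L = L * 1 := by ring
        _ ≤ L * L ^ 2 := by
            gcongr
            nlinarith
        _ = L ^ 3 := by ring
    calc (k : ℝ) * (8 * (d + 2)) ≤ (33 * L * lam) * (8 * (d + d)) := by gcongr
      _ = 528 * (L * lam * d) := by ring
      _ ≤ 700000 * (L ^ 3 * lam ^ 2 * d) := by
          gcongr
          norm_num
      _ = _ := by ring

end Pool.Agent.J4H21.SC
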