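import Mathlib
import Pool.Agent.J4H21.SC.Step

set_option autoImplicit false

/-!
Uncovered bodies in isotropic position: a triangular system of functionals, and the
parallelotope.
-/

namespace Pool.Agent.J4H21.SC

open MeasureTheory Set Module
open scoped ENNReal Pointwise NNReal
open Pool.Agent.H815R2.Flat Pool.Agent.J4H21.FL

variable {d : ℕ}

theorem tau2_mono (d : ℕ) (lam : ℝ) (k l : ℕ) (h : k ≤ l) :
    tau2 d lam k ≤ tau2 d lam l := by
  have hL0 : 0 ≤ Real.log ((d : ℝ) + 1) := Real.log_nonneg (by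
    have : (0 : ℝ) ≤ d := Nat.cast_nonneg d
    linarith)
  unfold tau2
  gcongr

theorem greedy2 (hd : 2 ≤ d) (p : Seminorm ℝ (Eu d)) (hcont : Continuous p)
    (h0 : volume {y : Eu d | p y ≤ 1} ≠ 0)
    (hfin : volume {y : Eu d | p y ≤ 1} ≠ ⊤) (hiso : Iso p) (lam : ℝ) (hlam : 1 ≤ lam)
    (hnot : ¬ Good p lam) (n : ℕ) (hn : n ≤ d) :
    ∃ x : ℕ → Eu d, ∃ φ : ℕ → (Eu d →ₗ[ℝ] ℝ), ∀ i < n, ‖x i‖ = 1 ∧
      (∀ l < i, inner ℝ (x l) (x i) = 0) ∧ (∀ y, |φ i y| ≤ p y) ∧
      (∀ y, (∀ l < i, inner ℝ (x l) y = 0) → φ i y = φ i (x i) * inner ℝ (x i) y) ∧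
      tau2 d lam (d - i) ≤ φ i (x i) := by
  classical
  induction n with
  | zero => exact ⟨fun _ => 0, fun _ => 0, fun i hi => absurd hi (by omega)⟩
  | succ n ih =>
    obtain ⟨x, φ, hx⟩ := ih (by omega)
    set W : Submodule ℝ (Eu d) := Submodule.span ℝ ((Finset.range n).image x : Finset (Eu d)) with hW
    have hWrank : finrank ℝ W ≤ n := by
      refine (finrank_span_finset_le_card _).trans ?_
      exact Finset.card_image_le.trans (by simp)
    have hsum := Submodule.finrank_add_finrank_orthogonal W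
    rw [finrank_euclideanSpace_fin] at hsum
    have hFrank : d - n ≤ finrank ℝ Wᗮ := by omega
    obtain ⟨φ', h1, x', h2, h3, h4, h5⟩ := step2 hd p hcont h0 hfin hiso lam hlam Wᗮ
      (finrank ℝ Wᗮ) rfl (by omega) hnot
    have hmem : ∀ y : Eu d, (∀ l < n, inner ℝ (x l) y = 0) → y ∈ Wᗮ := by
      intro y hy
      rw [Submodule.mem_orthogonal]
      intro u hu
      induction hu using Submodule.span_induction with
      | mem u hu =>
        rw [Finset.mem_coe, Finset.mem_image] at hu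
        obtain ⟨l, hl, rfl⟩ := hu
        exact hy l (Finset.mem_range.1 hl)
      | zero => simp
      | add u v _ _ hu hv => rw [inner_add_left, hu, hv, add_zero]
      | smul a u _ hu => rw [real_inner_smul_left, hu, mul_zero]
    have hx'0 : ∀ l < n, inner ℝ (x l) x' = 0 := by
      intro l hl
      rw [Submodule.mem_orthogonal] at h2
      apply h2
      apply Submodule.subset_span
      rw [Finset.mem_coe, Finset.mem_image]
      exact ⟨l, Finset.mem_range.2 hl, rfl⟩
    refine ⟨fun i => if i < n then x i else x', fun i => if i < n then φ i else φ', ?_⟩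
    intro i hi
    by_cases hin : i < n
    · obtain ⟨g1, g2, g3, g4, g5⟩ := hx i hin
      have hl : ∀ l < i, (if l < n then x l else x') = x l := fun l hl => if_pos (by omega)
      simp only [if_pos hin]
      refine ⟨g1, fun l hl' => ?_, g3, fun y hy => g4 y fun l hl' => ?_, g5⟩
      · rw [hl l hl']
        exact g2 l hl'
      · have := hy l hl'
        rwa [hl l hl'] at this
    · have hine : i = n := by omega
      subst hine
      simp only [lt_irrefl, if_false]
      have hl : ∀ l < i, (if l < i then x l else x') = x l := fun l hl => if_pos hl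
      refine ⟨h3, fun l hl' => ?_, h1, fun y hy => h4 y (hmem y fun l hl' => ?_), ?_⟩
      · rw [hl l hl']
        exact hx'0 l hl'
      · have := hy l hl'
        rwa [hl l hl'] at this
      · exact (tau2_mono d lam _ _ hFrank).trans h5

/-- the volume of the cube -/
theorem cube_vol : volume {c : Eu d | ∀ i, |c i| ≤ 1} = ENNReal.ofReal (2 ^ d) := by
  have h1 := (EuclideanSpace.volume_preserving_symm_measurableEquiv_toLp (Fin d)).measure_preimage
    (s := Icc (fun _ => (-1 : ℝ)) (fun _ => 1)) measurableSet_Icc.nullMeasurableSet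
  rw [Real.volume_Icc_pi] at h1
  have h2 : ∏ _i : Fin d, ENNReal.ofReal ((1 : ℝ) - -1) = ENNReal.ofReal (2 ^ d) := by
    rw [Finset.prod_const, Finset.card_univ, Fintype.card_fin, ← ENNReal.ofReal_pow (by norm_num)]
    norm_num
  rw [h2] at h1
  rw [← h1]
  congr 1
  ext c
  simp only [mem_preimage, mem_Icc, Pi.le_def]
  constructor
  · intro h
    exact ⟨fun i => (abs_le.1 (h i)).1, fun i => (abs_le.1 (h i)).2⟩
  · intro h i
    exact abs_le.2 ⟨h.1 i, h.2 i⟩

/-- the volume of a parallelotope -/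
theorem para_vol (hd : 0 < d) (x : Fin d → Eu d) (hx : Orthonormal ℝ x) (φ : Fin d → (Eu d →ₗ[ℝ] ℝ))
    (hφ : ∀ i l, i < l → φ i (x l) = 0) (θ : Fin d → ℝ) (hθ0 : ∀ i, 0 < θ i)
    (hθ : ∀ i, θ i ≤ φ i (x i)) :
    ∃ U : Eu d ≃L[ℝ] Eu d, (∀ y i, U y i = φ i y) ∧
      volume {y : Eu d | ∀ i, |U y i| ≤ 1} ≤ ENNReal.ofReal (∏ i, 2 / θ i) := by
  classical
  have : Nonempty (Fin d) := ⟨⟨0, hd⟩⟩
  set b : OrthonormalBasis (Fin d) ℝ (Eu d) :=
    (basisOfOrthonormalOfCardEqFinrank hx (by simp)).toOrthonormalBasis (by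
      rw [coe_basisOfOrthonormalOfCardEqFinrank]
      exact hx) with hb
  have hbx : ∀ i, b i = x i := by
    intro i
    rw [hb]
    simp
  set A : Matrix (Fin d) (Fin d) ℝ := Matrix.of fun i l => φ i (x l) with hA
  set T : Eu d →ₗ[ℝ] Eu d := Matrix.toEuclideanLin A with hT
  have hTc : ∀ (c : Eu d) i, T c i = φ i (b.repr.symm c) := by
    intro c i
    rw [hT, Matrix.toLpLin_apply]
    have h1 : b.repr.symm c = ∑ l, c l • x l := by
      rw [← b.sum_repr (b.repr.symm c)]
      refine Finset.sum_congr rfl fun l _ => ?_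
      rw [LinearIsometryEquiv.apply_symm_apply, hbx]
    rw [h1, map_sum]
    show (A.mulVec c) i = _
    rw [Matrix.mulVec, dotProduct]
    refine Finset.sum_congr rfl fun l _ => ?_
    rw [map_smul, smul_eq_mul, hA, Matrix.of_apply, mul_comm]
  have hdet : LinearMap.det T = ∏ i, φ i (x i) := by
    have h1 : LinearMap.det T = A.det := by
      rw [hT]
      exact LinearMap.det_toLpLin _ A
    rw [h1, Matrix.det_of_isLowerTriangular A (fun i l hil => hφ i l hil)]
    rfl
  have hdet0 : 0 < ∏ i, θ i := Finset.prod_pos fun i _ => hθ0 i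
  have hdet1 : ∏ i, θ i ≤ LinearMap.det T := by
    rw [hdet]
    exact Finset.prod_le_prod (fun i _ => (hθ0 i).le) fun i _ => hθ i
  have hdetne : LinearMap.det T ≠ 0 := ne_of_gt (lt_of_lt_of_le hdet0 hdet1)
  set U : Eu d ≃L[ℝ] Eu d :=
    (b.repr.toLinearEquiv.trans (LinearMap.equivOfDetNeZero T hdetne)).toContinuousLinearEquiv
    with hU
  have hUT : ∀ y, U y = T (b.repr y) := fun y => rfl
  refine ⟨U, fun y i => ?_, ?_⟩
  · rw [hUT, hTc, LinearIsometryEquiv.symm_apply_apply]
  have hset : {y : Eu d | ∀ i, |U y i| ≤ 1} = b.repr ⁻¹' (T ⁻¹' {c : Eu d | ∀ i, |c i| ≤ 1}) := by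
    ext y
    simp only [mem_ofPred_eq, mem_preimage]
    refine forall_congr' fun i => ?_
    rw [hUT]
  have hcm : MeasurableSet {c : Eu d | ∀ i, |c i| ≤ 1} := by
    have : {c : Eu d | ∀ i, |c i| ≤ 1} = ⋂ i, {c : Eu d | |c i| ≤ 1} := by
      ext c; simp
    rw [this]
    refine MeasurableSet.iInter fun i => ?_
    exact (isClosed_le (by fun_prop) continuous_const).measurableSet
  rw [hset, b.measurePreserving_repr.measure_preimage
    (T.continuous_of_finiteDimensional.measurable hcm).nullMeasurableSet,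
    Measure.addHaar_preimage_linearMap volume hdetne, cube_vol,
    ← ENNReal.ofReal_mul (by positivity)]
  apply ENNReal.ofReal_le_ofReal
  rw [abs_inv, abs_of_pos (lt_of_lt_of_le hdet0 hdet1)]
  calc (LinearMap.det T)⁻¹ * 2 ^ d ≤ (∏ i, θ i)⁻¹ * 2 ^ d := by
        gcongr
    _ = ∏ i, 2 / θ i := by
        rw [Finset.prod_div_distrib, Finset.prod_const, Finset.card_univ, Fintype.card_fin]
        field_simp

/-- the product of the lower bounds -/
theorem prod_bound (hd : 1 ≤ d) (C : ℝ) (hC : 0 < C) :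
    ∏ i : Fin d, (C * (d : ℝ) / ((d - (i : ℕ) : ℕ) : ℝ)) ≤ (C * Real.exp 1) ^ d := by
  have hd0 : (0 : ℝ) < d := by exact_mod_cast (by omega : 0 < d)
  have h1 : ∏ i : Fin d, (C * (d : ℝ) / ((d - (i : ℕ) : ℕ) : ℝ))
      = (C * d) ^ d / (d.factorial : ℝ) := by
    rw [Finset.prod_div_distrib, Finset.prod_const, Finset.card_univ, Fintype.card_fin]
    congr 1
    have h2 : (d.factorial : ℝ) = ∏ i ∈ Finset.range d, ((d - i : ℕ) : ℝ) := by
      rw [← Finset.prod_range_add_one_eq_factorial, ← Finset.prod_range_reflect]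
      push_cast
      refine Finset.prod_congr rfl fun i hi => ?_
      rw [Finset.mem_range] at hi
      have : d - 1 - i + 1 = d - i := by omega
      rw [← this]
      push_cast
      ring
    rw [h2, Finset.prod_range]
  rw [h1, mul_pow, mul_pow, div_le_iff₀ (by positivity), mul_assoc]
  gcongr
  have h3 : (d : ℝ) ^ d / (d.factorial : ℝ) ≤ Real.exp d := Real.pow_div_factorial_le_exp d hd0.le d
  rw [div_le_iff₀ (by positivity)] at h3
  calc (d : ℝ) ^ d ≤ Real.exp d * d.factorial := h3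
    _ = _ := by
      congr 1
      rw [← Real.exp_nat_mul, mul_one]

/-- the parallelotope in isotropic position -/
theorem para_iso (hd : 2 ≤ d) (p : Seminorm ℝ (Eu d)) (hcont : Continuous p)
    (h0 : volume {y : Eu d | p y ≤ 1} ≠ 0)
    (hfin : volume {y : Eu d | p y ≤ 1} ≠ ⊤) (hiso : Iso p) (lam : ℝ) (hlam : 1 ≤ lam)
    (hnot : ¬ Good p lam) :
    ∃ U : Eu d ≃L[ℝ] Eu d, (∀ y i, |U y i| ≤ p y) ∧
      volume {y : Eu d | ∀ i, |U y i| ≤ 1}
        ≤ ENNReal.ofReal ((4 * 10 ^ 6 * lam ^ 2 * Real.log (d + 1) ^ 3) ^ d) := by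
  have hd' : (2 : ℝ) ≤ d := by exact_mod_cast hd
  have hd0 : (0 : ℝ) < d := by linarith
  have hL0 : 0 < Real.log ((d : ℝ) + 1) := Real.log_pos (by linarith)
  have hlam0 : 0 < lam := by linarith
  obtain ⟨x, φ, hx⟩ := greedy2 hd p hcont h0 hfin hiso lam hlam hnot d le_rfl
  have horth : Orthonormal ℝ (fun i : Fin d => x i) := by
    refine ⟨fun i => (hx i i.2).1, fun i l hil => ?_⟩
    rcases lt_or_gt_of_ne (Fin.val_injective.ne hil) with h | h
    · exact (hx l l.2).2.1 i h
    · rw [real_inner_comm]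
      exact (hx i i.2).2.1 l h
  obtain ⟨U, hU, h1⟩ := para_vol (by omega) (fun i : Fin d => x i) horth (fun i => φ i) (fun i l hil => by
      rw [(hx i i.2).2.2.2.1 (x l) fun m hm => (hx l l.2).2.1 m (by
        have : (i : ℕ) < l := hil
        omega), (hx l l.2).2.1 i hil, mul_zero])
    (fun i => tau2 d lam (d - i)) (fun i => by
      unfold tau2
      have : 0 < d - (i : ℕ) := by omega
      positivity) (fun i => (hx i i.2).2.2.2.2)
  refine ⟨U, fun y i => by rw [hU]; exact (hx i i.2).2.2.1 y, ?_⟩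
  refine h1.trans (ENNReal.ofReal_le_ofReal ?_)
  set C : ℝ := 2 * (7 * 10 ^ 5 * lam ^ 2 * Real.log (d + 1) ^ 3) with hC
  have hC0 : 0 < C := by positivity
  have e1 : ∀ i : Fin d, 2 / tau2 d lam (d - (i : ℕ)) = C * (d : ℝ) / ((d - (i : ℕ) : ℕ) : ℝ) := by
    intro i
    unfold tau2
    rw [hC]
    have : 0 < d - (i : ℕ) := by omega
    have h' : (0 : ℝ) < ((d - (i : ℕ) : ℕ) : ℝ) := by exact_mod_cast this
    field_simp
  rw [Finset.prod_congr rfl fun i _ => e1 i]
  refine (prod_bound (by omega) C hC0).trans ?_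
  have h3 := Real.exp_one_lt_d9
  refine pow_le_pow_left₀ (by positivity) ?_ d
  rw [hC]
  have h4 : 0 < lam ^ 2 * Real.log ((d : ℝ) + 1) ^ 3 := by positivity
  calc 2 * (7 * 10 ^ 5 * lam ^ 2 * Real.log (d + 1) ^ 3) * Real.exp 1
      = (14 * 10 ^ 5 * Real.exp 1) * (lam ^ 2 * Real.log (d + 1) ^ 3) := by ring
    _ ≤ (4 * 10 ^ 6) * (lam ^ 2 * Real.log (d + 1) ^ 3) :=
        mul_le_mul_of_nonneg_right (by linarith) h4.le
    _ = _ := by ring

end Pool.Agent.J4H21.SC
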