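import Mathlib
import Pool.Agent.J4H21.SC.Greedy
import Pool.Agent.J4H21.FL.Setup

set_option autoImplicit false

/-!
The parallelotope for a body in general position.
-/

namespace Pool.Agent.J4H21.SC

open MeasureTheory Set Module
open scoped ENNReal Pointwise NNReal
open Pool.Agent.H815R2.Flat Pool.Agent.J4H21.FL

variable {d : ℕ}

/-- second moments over `K` after the isotropic map -/
theorem iso_real (p : Seminorm ℝ (Eu d)) (hcont : Continuous p) (hcomp : IsCompact {y : Eu d | p y ≤ 1})
    (S : Eu d ≃L[ℝ] Eu d) (hS : Iso (tr p S)) (v : Eu d) :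
    ∫ z in {y : Eu d | p y ≤ 1}, (inner ℝ v (S z)) ^ 2
      = ‖v‖ ^ 2 * (volume {y : Eu d | p y ≤ 1}).toReal := by
  obtain ⟨c, hc0, hct, hc⟩ := change p hcont S
  have hvol := change_vol p S c hc
  have hm : Measurable fun y : Eu d => ENNReal.ofReal ((inner ℝ v y) ^ 2) := by fun_prop
  have h1 := hc _ hm
  rw [hS v, mul_left_comm, ← hvol] at h1
  have hnn : 0 ≤ ∫ z in {y : Eu d | p y ≤ 1}, (inner ℝ v (S z)) ^ 2 :=
    integral_nonneg fun z => sq_nonneg _
  have hint : IntegrableOn (fun z : Eu d => (inner ℝ v (S z)) ^ 2) {y : Eu d | p y ≤ 1} := by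
    refine ContinuousOn.integrableOn_compact hcomp ?_
    fun_prop
  rw [← ofReal_integral_eq_lintegral_ofReal hint
    (Filter.Eventually.of_forall fun z => sq_nonneg _)] at h1
  have h2 := congrArg ENNReal.toReal h1
  rw [ENNReal.toReal_ofReal hnn, ENNReal.toReal_mul, ENNReal.toReal_ofReal (sq_nonneg _)] at h2
  exact h2

/-- the determinant of the isotropic map -/
theorem det_cov (p : Seminorm ℝ (Eu d)) (hcont : Continuous p)
    (h0 : volume {y : Eu d | p y ≤ 1} ≠ 0) (hcomp : IsCompact {y : Eu d | p y ≤ 1})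
    (S : Eu d ≃L[ℝ] Eu d) (hS : Iso (tr p S)) :
    |LinearMap.det (S : Eu d →ₗ[ℝ] Eu d)|⁻¹
      = √(Matrix.det (Matrix.of fun i j : Fin d => ⨍ z in {y : Eu d | p y ≤ 1}, z i * z j)) := by
  classical
  set K : Set (Eu d) := {y : Eu d | p y ≤ 1} with hK
  have hVr : 0 < (volume K).toReal := ENNReal.toReal_pos h0 hcomp.measure_lt_top.ne
  set C : Matrix (Fin d) (Fin d) ℝ := Matrix.of fun i j : Fin d => ⨍ z in K, z i * z j with hC
  set A : Matrix (Fin d) (Fin d) ℝ := Matrix.toEuclideanLin.symm (S : Eu d →ₗ[ℝ] Eu d) with hA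
  have hAS : Matrix.toEuclideanLin A = (S : Eu d →ₗ[ℝ] Eu d) := by
    rw [hA, LinearEquiv.apply_symm_apply]
  have hSz : ∀ (z : Eu d) i, (S z) i = ∑ k, A i k * z k := by
    intro z i
    have h1 : (S z) i = (Matrix.toEuclideanLin A z) i := by rw [hAS]; rfl
    rw [h1]
    rfl
  have hdet : LinearMap.det (S : Eu d →ₗ[ℝ] Eu d) = A.det := by
    rw [← hAS]
    exact LinearMap.det_toLpLin _ A
  have havg : ∀ f : Eu d → ℝ, ⨍ z in K, f z = (volume K).toReal⁻¹ * ∫ z in K, f z := by
    intro f
    rw [setAverage_eq, smul_eq_mul]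
    rfl
  have hints : ∀ k l : Fin d, IntegrableOn (fun z : Eu d => z k * z l) K := by
    intro k l
    refine ContinuousOn.integrableOn_compact hcomp ?_
    fun_prop
  have hintS : ∀ k l : Fin d, IntegrableOn (fun z : Eu d => (S z) k * (S z) l) K := by
    intro k l
    refine ContinuousOn.integrableOn_compact hcomp ?_
    fun_prop
  have key : A * C * A.transpose = 1 := by
    ext i j
    have h1 : (A * C * A.transpose) i j = (volume K).toReal⁻¹ * ∫ z in K, (S z) i * (S z) j := by
      have e1 : ∫ z in K, (S z) i * (S z) j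
          = ∑ l, ∑ k, A i k * A j l * ∫ z in K, z k * z l := by
        have e2 : ∀ z : Eu d, (S z) i * (S z) j = ∑ l, ∑ k, A i k * A j l * (z k * z l) := by
          intro z
          rw [hSz, hSz, Finset.sum_mul_sum, Finset.sum_comm]
          refine Finset.sum_congr rfl fun l _ => Finset.sum_congr rfl fun k _ => ?_
          ring
        simp only [e2]
        rw [integral_finsetSum]
        · refine Finset.sum_congr rfl fun l _ => ?_
          rw [integral_finsetSum]
          · refine Finset.sum_congr rfl fun k _ => ?_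
            rw [integral_const_mul]
          · intro k _
            exact (hints k l).const_mul _
        · intro l _
          refine integrable_finsetSum _ fun k _ => ?_
          exact (hints k l).const_mul _
      rw [e1, Finset.mul_sum, Matrix.mul_apply]
      refine Finset.sum_congr rfl fun l _ => ?_
      rw [Matrix.mul_apply, Finset.sum_mul, Finset.mul_sum]
      refine Finset.sum_congr rfl fun k _ => ?_
      rw [hC, Matrix.of_apply, havg, Matrix.transpose_apply]
      ring
    have hiv : ∀ v : Eu d, ∫ z in K, (inner ℝ v (S z)) ^ 2 = ‖v‖ ^ 2 * (volume K).toReal :=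
      iso_real p hcont hcomp S hS
    have h2 : ∫ z in K, (S z) i * (S z) j
        = (if i = j then (1 : ℝ) else 0) * (volume K).toReal := by
      have ei : ∀ (l : Fin d) (z : Eu d), inner ℝ (EuclideanSpace.single l (1 : ℝ)) (S z)
          = (S z) l := by
        intro l z
        rw [EuclideanSpace.inner_single_left]
        simp
      have e3 : ∀ z : Eu d, (S z) i * (S z) j
          = (1 / 4) * (inner ℝ (EuclideanSpace.single i (1 : ℝ) + EuclideanSpace.single j (1 : ℝ))
              (S z)) ^ 2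
            - (1 / 4) * (inner ℝ (EuclideanSpace.single i (1 : ℝ)
              - EuclideanSpace.single j (1 : ℝ)) (S z)) ^ 2 := by
        intro z
        rw [inner_add_left, inner_sub_left, ei, ei]
        ring
      simp only [e3]
      rw [integral_sub, integral_const_mul, integral_const_mul, hiv, hiv]
      · have e4 : ‖(EuclideanSpace.single i (1 : ℝ) : Eu d) + EuclideanSpace.single j (1 : ℝ)‖ ^ 2
            - ‖(EuclideanSpace.single i (1 : ℝ) : Eu d) - EuclideanSpace.single j (1 : ℝ)‖ ^ 2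
            = 4 * (if i = j then (1 : ℝ) else 0) := by
          rw [norm_add_sq_real, norm_sub_sq_real, EuclideanSpace.inner_single_left]
          have : (EuclideanSpace.single j (1 : ℝ) : Eu d) i = if i = j then (1 : ℝ) else 0 := by
            simp
          rw [this]
          simp only [map_one, one_mul]
          ring
        linear_combination (1 / 4) * (volume K).toReal * e4
      · refine Integrable.const_mul ?_ _
        refine ContinuousOn.integrableOn_compact hcomp ?_
        fun_prop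
      · refine Integrable.const_mul ?_ _
        refine ContinuousOn.integrableOn_compact hcomp ?_
        fun_prop
    rw [h1, h2, Matrix.one_apply]
    field_simp
  have h3 := congrArg Matrix.det key
  rw [Matrix.det_mul, Matrix.det_mul, Matrix.det_transpose, Matrix.det_one] at h3
  have h4 : A.det ≠ 0 := by
    intro h
    rw [h] at h3
    simp at h3
  have h5 : C.det = (A.det⁻¹) ^ 2 := by
    field_simp
    linear_combination h3
  rw [hdet, h5, Real.sqrt_sq_eq_abs, abs_inv]

/-- the parallelotope, general position -/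
theorem para_gen (hd : 2 ≤ d) (p : Seminorm ℝ (Eu d)) (hcont : Continuous p)
    (h0 : volume {y : Eu d | p y ≤ 1} ≠ 0)
    (hfin : volume {y : Eu d | p y ≤ 1} ≠ ⊤) (hcomp : IsCompact {y : Eu d | p y ≤ 1})
    (lam : ℝ) (hlam : 1 ≤ lam) (hnot : ¬ Good p lam) :
    ∃ U : Eu d ≃L[ℝ] Eu d, (∀ y i, |U y i| ≤ p y) ∧
      volume {y : Eu d | ∀ i, |U y i| ≤ 1}
        ≤ ENNReal.ofReal ((4 * 10 ^ 6 * lam ^ 2 * Real.log (d + 1) ^ 3) ^ d *
          √(Matrix.det (Matrix.of fun i j : Fin d =>
            ⨍ z in {y : Eu d | p y ≤ 1}, z i * z j))) := by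
  obtain ⟨S, hS⟩ := exists_iso p hcont h0 hcomp
  obtain ⟨c, hc0, hct, hc⟩ := change p hcont S
  have hvol := change_vol p S c hc
  have hL0 : 0 ≤ Real.log ((d : ℝ) + 1) := Real.log_nonneg (by
    have : (0 : ℝ) ≤ d := Nat.cast_nonneg d
    linarith)
  obtain ⟨U, h1, h2⟩ := para_iso hd (tr p S) (hcont.comp S.symm.continuous)
    (fun h => h0 (by rw [hvol, h, mul_zero])) (fun h => hfin (by
      rw [hvol, h, ENNReal.mul_top hc0])) hS lam hlam (fun h => hnot (good_tr p S lam h))
  refine ⟨S.trans U, fun y i => ?_, ?_⟩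
  · have := h1 (S y) i
    rw [tr_apply, ContinuousLinearEquiv.symm_apply_apply] at this
    exact this
  · have hdet : LinearMap.det (S : Eu d →ₗ[ℝ] Eu d) ≠ 0 :=
      (LinearEquiv.isUnit_det' S.toLinearEquiv).ne_zero
    have hset : {y : Eu d | ∀ i, |(S.trans U) y i| ≤ 1}
        = (S : Eu d →ₗ[ℝ] Eu d) ⁻¹' {y : Eu d | ∀ i, |U y i| ≤ 1} := rfl
    rw [hset, Measure.addHaar_preimage_linearMap volume hdet, abs_inv,
      det_cov p hcont h0 hcomp S hS, mul_comm, ENNReal.ofReal_mul (by positivity)]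
    gcongr

/-- Hadamard's inequality for a linear map with small coordinates on the ball -/
theorem hadamard (hd : 0 < d) (T : Eu d →ₗ[ℝ] Eu d) (h : ∀ x : Eu d, ‖x‖ ≤ 1 → ∀ i, |T x i| ≤ 1) :
    |LinearMap.det T| ≤ 1 := by
  classical
  set A : Matrix (Fin d) (Fin d) ℝ := Matrix.toEuclideanLin.symm T with hA
  have hAT : Matrix.toEuclideanLin A = T := by rw [hA, LinearEquiv.apply_symm_apply]
  have hTx : ∀ (x : Eu d) i, T x i = ∑ k, A i k * x k := by
    intro x i
    rw [← hAT]
    rfl
  have hdet : LinearMap.det T = A.det := by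
    rw [← hAT]
    exact LinearMap.det_toLpLin _ A
  -- the rows
  set r : Fin d → Eu d := fun i => WithLp.toLp 2 (A i) with hr
  have hrn : ∀ i, ‖r i‖ ≤ 1 := by
    intro i
    by_contra hcon
    push Not at hcon
    have h0 : 0 < ‖r i‖ := by linarith
    have h1 := h ((‖r i‖)⁻¹ • r i) (by
      rw [norm_smul, norm_inv, norm_norm, inv_mul_cancel₀ h0.ne']) i
    have h2 : T ((‖r i‖)⁻¹ • r i) i = ‖r i‖ := by
      rw [map_smul]
      show (‖r i‖)⁻¹ * T (r i) i = ‖r i‖
      rw [hTx]
      have h3 : ∑ k, A i k * (r i) k = ‖r i‖ ^ 2 := by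
        rw [EuclideanSpace.norm_sq_eq]
        refine Finset.sum_congr rfl fun k _ => ?_
        rw [Real.norm_eq_abs, sq_abs]
        show A i k * A i k = (A i k) ^ 2
        ring
      rw [h3]
      field_simp
    rw [h2, abs_of_pos h0] at h1
    linarith
  have hfin : Fact (finrank ℝ (Eu d) = d) := ⟨finrank_euclideanSpace_fin⟩
  have : Nonempty (Fin d) := ⟨⟨0, hd⟩⟩
  set b := EuclideanSpace.basisFun (Fin d) ℝ with hb
  have h1 := (b.toBasis.orientation).abs_volumeForm_apply_le r
  have h2 : |(b.toBasis.orientation).volumeForm r| = |b.toBasis.det r| :=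
    (b.toBasis.orientation).volumeForm_robust' b r ▸ rfl
  rw [h2] at h1
  have h3 : b.toBasis.det r = A.det := by
    rw [Basis.det_apply, ← Matrix.det_transpose]
    congr 1
  rw [hdet, ← h3]
  refine h1.trans ?_
  exact Finset.prod_le_one (fun i _ => norm_nonneg _) fun i _ => hrn i

/-- volumes of parallelotopes which contain an ellipsoid -/
theorem ellipsoid_vol (hd : 0 < d) (U : Eu d ≃L[ℝ] Eu d) (A : Eu d →ₗ[ℝ] Eu d)
    (h : ∀ x : Eu d, ‖x‖ ≤ 1 → ∀ i, |U (A x) i| ≤ 1) :
    ENNReal.ofReal (2 ^ d * |LinearMap.det A|) ≤ volume {y : Eu d | ∀ i, |U y i| ≤ 1} := by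
  have hdet : LinearMap.det (U : Eu d →ₗ[ℝ] Eu d) ≠ 0 :=
    (LinearEquiv.isUnit_det' U.toLinearEquiv).ne_zero
  have hset : {y : Eu d | ∀ i, |U y i| ≤ 1}
      = (U : Eu d →ₗ[ℝ] Eu d) ⁻¹' {c : Eu d | ∀ i, |c i| ≤ 1} := rfl
  rw [hset, Measure.addHaar_preimage_linearMap volume hdet, cube_vol,
    ← ENNReal.ofReal_mul (by positivity)]
  apply ENNReal.ofReal_le_ofReal
  have h1 := hadamard hd ((U : Eu d →ₗ[ℝ] Eu d).comp A) h
  rw [LinearMap.det_comp, abs_mul] at h1
  rw [abs_inv, mul_comm]
  have h2 : 0 < |LinearMap.det (U : Eu d →ₗ[ℝ] Eu d)| := abs_pos.2 hdet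
  gcongr
  rw [← one_div, le_div_iff₀ h2, mul_comm]
  exact h1

end Pool.Agent.J4H21.SC
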